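import Pool.Agent.H65.ParamInt

set_option autoImplicit false

open scoped ContDiff Real
open MeasureTheory intervalIntegral Set

namespace Pool.Agent.H65

noncomputable section

/-- The Fourier projection in direction `e` onto frequency `m`. -/
def avg {E : Type} [NormedAddCommGroup E] [NormedSpace ℝ E] (e : E) (m : ℤ) (F : E → ℂ) (x : E) : ℂ :=
  (1 / (2 * π) : ℝ) • ∫ s in (0 : ℝ)..(2 * π), Complex.exp (-(Complex.I * m * s)) * F (x + s • e)

variable {E : Type} [NormedAddCommGroup E] [NormedSpace ℝ E]

theorem avg_congr (e : E) (m : ℤ) (F G : E → ℂ) (x : E)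
    (h : ∀ s : ℝ, F (x + s • e) = G (x + s • e)) : avg e m F x = avg e m G x := by
  unfold avg
  simp only [h]

theorem avg_smul_const (e : E) (m : ℤ) (F : E → ℂ) (x : E) (c : ℂ) :
    avg e m (fun y => c * F y) x = c * avg e m F x := by
  unfold avg
  rw [mul_smul_comm, ← intervalIntegral.integral_const_mul]
  congr 2
  ext1 s
  ring

theorem avg_mul (e : E) (m : ℤ) (F : E → ℂ) (x : E) (c : E → ℂ)
    (hc : ∀ s : ℝ, c (x + s • e) = c x) :
    avg e m (fun y => c y * F y) x = c x * avg e m F x := by
  rw [← avg_smul_const]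
  apply avg_congr
  intro s
  rw [hc]

theorem cont_kernel (m : ℤ) : Continuous (fun s : ℝ => Complex.exp (-(Complex.I * m * s))) := by
  fun_prop

theorem intervalIntegrable_avg (e : E) (m : ℤ) (F : E → ℂ) (hF : Continuous F) (x : E) (a b : ℝ) :
    IntervalIntegrable (fun s : ℝ => Complex.exp (-(Complex.I * m * s)) * F (x + s • e))
      volume a b := by
  apply Continuous.intervalIntegrable
  exact (cont_kernel m).mul (hF.comp (by fun_prop))

theorem avg_add (e : E) (m : ℤ) (F G : E → ℂ) (hF : Continuous F) (hG : Continuous G) (x : E) :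
    avg e m (fun y => F y + G y) x = avg e m F x + avg e m G x := by
  unfold avg
  rw [← smul_add, ← intervalIntegral.integral_add (intervalIntegrable_avg e m F hF x _ _)
    (intervalIntegrable_avg e m G hG x _ _)]
  congr 2
  ext1 s
  ring

theorem avg_zero (e : E) (m : ℤ) (x : E) : avg e m (fun _ => (0 : ℂ)) x = 0 := by
  unfold avg
  simp

theorem avg_sum {ι : Type} (e : E) (m : ℤ) (t : Finset ι) (F : ι → E → ℂ)
    (hF : ∀ i ∈ t, Continuous (F i)) (x : E) :
    avg e m (fun y => ∑ i ∈ t, F i y) x = ∑ i ∈ t, avg e m (F i) x := by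
  unfold avg
  rw [← Finset.smul_sum, ← intervalIntegral.integral_finsetSum]
  · congr 2
    ext1 s
    rw [Finset.mul_sum]
  · intro i hi
    exact intervalIntegrable_avg e m (F i) (hF i hi) x _ _

theorem avg_conj (e : E) (m : ℤ) (F : E → ℂ) (x : E) :
    (starRingEnd ℂ) (avg e m F x) = avg e (-m) (fun y => (starRingEnd ℂ) (F y)) x := by
  unfold avg
  rw [Complex.real_smul, Complex.real_smul, map_mul, Complex.conj_ofReal,
    ← intervalIntegral_conj]
  congr 2
  ext1 s
  rw [map_mul, ← Complex.exp_conj]
  congr 2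
  simp

theorem contDiff_kernel (e : E) (m : ℤ) (F : E → ℂ) (hF : ContDiff ℝ ∞ F) :
    ContDiff ℝ ∞ (fun p : E × ℝ => Complex.exp (-(Complex.I * m * p.2)) * F (p.1 + p.2 • e)) := by
  apply ContDiff.mul
  · apply ContDiff.cexp
    apply ContDiff.neg
    apply ContDiff.mul contDiff_const
    exact Complex.ofRealCLM.contDiff.comp contDiff_snd
  · exact hF.comp (by fun_prop)

/-- orthogonality of characters -/
theorem avg_of_shift (e : E) (m n : ℤ) (G : E → ℂ) (x : E)
    (h : ∀ s : ℝ, G (x + s • e) = Complex.exp (Complex.I * n * s) * G x) :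
    avg e m G x = if m = n then G x else 0 := by
  unfold avg
  have h1 : ∀ s : ℝ, Complex.exp (-(Complex.I * m * s)) * G (x + s • e) =
      Complex.exp (((n - m : ℤ) * Complex.I) * s) * G x := by
    intro s
    rw [h, ← mul_assoc, ← Complex.exp_add]
    congr 2
    push_cast; ring
  simp only [h1]
  rw [intervalIntegral.integral_mul_const]
  split_ifs with hmn
  · subst hmn
    simp only [sub_self, Int.cast_zero, zero_mul, Complex.exp_zero,
      intervalIntegral.integral_const, sub_zero, Complex.real_smul, mul_one]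
    push_cast
    have : (π : ℂ) ≠ 0 := by exact_mod_cast Real.pi_ne_zero
    field_simp
  · have hne : ((n - m : ℤ) : ℂ) * Complex.I ≠ 0 := by
      apply mul_ne_zero _ Complex.I_ne_zero
      exact_mod_cast sub_ne_zero.2 (Ne.symm hmn)
    rw [integral_exp_mul_complex hne]
    have : Complex.exp (((n - m : ℤ) : ℂ) * Complex.I * ((2 * π : ℝ) : ℂ)) = 1 := by
      have h2 : ((n - m : ℤ) : ℂ) * Complex.I * ((2 * π : ℝ) : ℂ) =
        ((n - m : ℤ) : ℂ) * (2 * π * Complex.I) := by push_cast; ring
      rw [h2, Complex.exp_int_mul_two_pi_mul_I]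
    rw [this]
    simp

/-- Fourier inversion for finitely many frequencies -/
theorem eq_sum_avg (e : E) (F : E → ℂ) (hF : Continuous F)
    (x : E) (hper : ∀ s : ℝ, F (x + (s + 2 * π) • e) = F (x + s • e)) (t : Finset ℤ)
    (ht : ∀ m, m ∉ t → avg e m F x = 0) :
    F x = ∑ m ∈ t, avg e m F x := by
  haveI : Fact (0 < 2 * π) := ⟨Real.two_pi_pos⟩
  have hfper : Function.Periodic (fun s : ℝ => F (x + s • e)) (2 * π) := hper
  have hcont : Continuous (fun s : ℝ => F (x + s • e)) := hF.comp (by fun_prop)
  have hcl : Continuous hfper.lift := by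
    rw [continuous_coinduced_dom]
    exact hcont
  let f : C(AddCircle (2 * π), ℂ) := ⟨hfper.lift, hcl⟩
  have hcoef : ∀ m : ℤ, fourierCoeff f m = avg e m F x := by
    intro m
    rw [fourierCoeff_eq_intervalIntegral f m 0]
    unfold avg
    rw [zero_add]
    congr 2
    ext1 s
    rw [smul_eq_mul]
    congr 1
    rw [fourier_coe_apply]
    congr 1
    have : (π : ℂ) ≠ 0 := by exact_mod_cast Real.pi_ne_zero
    push_cast
    field_simp
  have hsum : Summable (fourierCoeff f) := by
    apply summable_of_ne_finset_zero (s := t)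
    intro m hm
    rw [hcoef, ht m hm]
  have h1 := has_pointwise_sum_fourier_series_of_summable hsum (0 : AddCircle (2 * π))
  have h2 : f (0 : AddCircle (2 * π)) = F x := by
    have : f ((0 : ℝ) : AddCircle (2 * π)) = F (x + (0 : ℝ) • e) := rfl
    simpa using this
  rw [h2] at h1
  have h3 : HasSum (fun i : ℤ => fourierCoeff f i • (fourier i) (0 : AddCircle (2 * π)))
      (∑ m ∈ t, fourierCoeff f m • (fourier m) (0 : AddCircle (2 * π))) := by
    apply hasSum_sum_of_ne_finset_zero
    intro m hm
    rw [hcoef, ht m hm, zero_smul]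
  have h4 := h1.unique h3
  rw [h4]
  apply Finset.sum_congr rfl
  intro m _
  rw [hcoef, fourier_eval_zero, smul_eq_mul, mul_one]

variable [FiniteDimensional ℝ E]

theorem contDiff_avg (e : E) (m : ℤ) (F : E → ℂ) (hF : ContDiff ℝ ∞ F) :
    ContDiff ℝ ∞ (avg e m F) := by
  unfold avg
  apply ContDiff.const_smul
  exact contDiff_paramInt _ (contDiff_kernel e m F hF) 0 (2 * π)

theorem fderiv_avg (e : E) (m : ℤ) (F : E → ℂ) (hF : ContDiff ℝ ∞ F) (x v : E) :
    fderiv ℝ (avg e m F) x v = avg e m (fun y => fderiv ℝ F y v) x := by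
  have h1 := contDiff_kernel e m F hF
  have h2 := fderiv_paramInt_apply _ (h1.of_le (by exact_mod_cast le_top)) 0 (2 * π) x v
  have h3 : DifferentiableAt ℝ (fun y : E => ∫ s in (0 : ℝ)..(2 * π),
      Complex.exp (-(Complex.I * m * s)) * F (y + s • e)) x :=
    ((contDiff_paramInt _ h1 0 (2 * π)).differentiable (by simp)) x
  unfold avg
  rw [fderiv_fun_const_smul h3, _root_.smul_apply]
  simp only at h2
  rw [h2]
  congr 2
  ext1 s
  have hd : DifferentiableAt ℝ (fun y : E => F (y + s • e)) x := by
    have : ContDiff ℝ ∞ (fun y : E => F (y + s • e)) := hF.comp (by fun_prop)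
    exact (this.differentiable (by simp)) x
  rw [fderiv_const_mul hd, _root_.smul_apply, smul_eq_mul]
  congr 1
  rw [fderiv_comp_add_right]

/-- quasi-periodicity -/
theorem avg_shift (e : E) (m : ℤ) (F : E → ℂ) (hper : ∀ y, F (y + (2 * π) • e) = F y)
    (x : E) (a : ℝ) :
    avg e m F (x + a • e) = Complex.exp (Complex.I * m * a) * avg e m F x := by
  unfold avg
  rw [mul_smul_comm, ← intervalIntegral.integral_const_mul]
  congr 1
  set f : ℝ → ℂ := fun s => Complex.exp (-(Complex.I * m * s)) * F (x + s • e) with hf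
  have hfper : Function.Periodic f (2 * π) := by
    intro s
    simp only [hf]
    have h1 : x + (s + 2 * π) • e = (x + s • e) + (2 * π) • e := by
      rw [add_smul]; abel
    rw [h1, hper]
    congr 1
    have h2 : -(Complex.I * m * ((s + 2 * π : ℝ) : ℂ)) =
        -(Complex.I * m * s) + ((-m : ℤ) : ℂ) * (2 * π * Complex.I) := by
      push_cast; ring
    rw [h2, Complex.exp_add, Complex.exp_int_mul_two_pi_mul_I, mul_one]
  have hint : ∀ c d : ℝ, (∫ s in (c)..(d), Complex.exp (-(Complex.I * m * s)) * F (x + a • e + s • e)) =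
      ∫ s in (c)..(d), Complex.exp (Complex.I * m * a) * f (s + a) := by
    intro c d
    congr 1
    ext1 s
    simp only [hf]
    rw [← mul_assoc, ← Complex.exp_add]
    congr 2
    · push_cast; ring
    · rw [add_smul]; abel
  rw [hint, intervalIntegral.integral_const_mul, intervalIntegral.integral_const_mul]
  congr 1
  rw [intervalIntegral.integral_comp_add_right (fun s => f s) a]
  rw [zero_add, add_comm (2 * π) a, hfper.intervalIntegral_add_eq a 0, zero_add]

/-- the derivative in the direction of averaging -/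
theorem fderiv_avg_dir (e : E) (m : ℤ) (F : E → ℂ) (hF : ContDiff ℝ ∞ F)
    (hper : ∀ y, F (y + (2 * π) • e) = F y) (x : E) :
    fderiv ℝ (avg e m F) x e = Complex.I * m * avg e m F x := by
  have hd : DifferentiableAt ℝ (avg e m F) x := ((contDiff_avg e m F hF).differentiable (by simp)) x
  have h1 : HasDerivAt (fun a : ℝ => avg e m F (x + a • e)) (fderiv ℝ (avg e m F) x e) 0 := by
    have h2 : HasFDerivAt (avg e m F) (fderiv ℝ (avg e m F) x) (x + (0 : ℝ) • e) := by
      simpa using hd.hasFDerivAt
    have h3 : HasDerivAt (fun a : ℝ => x + a • e) e 0 := by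
      simpa using ((hasDerivAt_id (0 : ℝ)).smul_const e).const_add x
    exact h2.comp_hasDerivAt (0 : ℝ) h3
  have h4 : HasDerivAt (fun a : ℝ => avg e m F (x + a • e))
      (Complex.I * m * avg e m F x) 0 := by
    have h5 : (fun a : ℝ => avg e m F (x + a • e)) =
        fun a : ℝ => Complex.exp (Complex.I * m * a) * avg e m F x := by
      ext1 a; exact avg_shift e m F hper x a
    rw [h5]
    have h6 : HasDerivAt (fun a : ℝ => Complex.exp (Complex.I * m * a))
        (Complex.exp (Complex.I * m * (0 : ℝ)) * (Complex.I * m * 1)) 0 := by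
      have h7 : HasDerivAt (fun a : ℝ => Complex.I * m * (a : ℂ)) (Complex.I * m * 1) 0 :=
        (Complex.ofRealCLM.hasDerivAt (x := (0 : ℝ))).const_mul (Complex.I * m) |>.congr_deriv (by simp)
      exact h7.cexp
    simpa using h6.mul_const (avg e m F x)
  exact h1.unique h4

end

end Pool.Agent.H65
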