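import Pool.Agent.H65.Metrics

set_option autoImplicit false

open scoped ContDiff Real
open Set

namespace Pool.Agent.H65.Steklov

noncomputable section

/-! ### The real differential operator -/

/-- Real version of `LL`. -/
def LR (a b c : ℝ → ℝ → ℝ) (F : R4 → ℝ) (x : R4) : ℝ :=
  pd 0 (pd 0 F) x + pd 1 (pd 1 F) x + (1 / 100) *
    (a (x 0) (x 1) * pd 2 (pd 2 F) x + b (x 0) (x 1) * pd 2 (pd 3 F) x +
      b (x 0) (x 1) * pd 3 (pd 2 F) x + c (x 0) (x 1) * pd 3 (pd 3 F) x)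

theorem pd_ofReal (i : Fin (3 + 1)) (F : R4 → ℝ) (hF : ContDiff ℝ ∞ F) :
    pd i (fun x => (F x : ℂ)) = fun x => ((pd i F x : ℝ) : ℂ) := by
  ext y
  unfold pd
  have h1 : HasFDerivAt F (fderiv ℝ F y) y := ((hF.differentiable (by simp)) _).hasFDerivAt
  have h2 : HasFDerivAt (fun y => (F y : ℂ)) (Complex.ofRealCLM.comp (fderiv ℝ F y)) y :=
    Complex.ofRealCLM.hasFDerivAt.comp y h1
  rw [h2.fderiv]
  rfl

theorem LL_ofReal (a b c : ℝ → ℝ → ℝ) (F : R4 → ℝ) (hF : ContDiff ℝ ∞ F) (x : R4) :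
    LL a b c (fun x => (F x : ℂ)) x = ((LR a b c F x : ℝ) : ℂ) := by
  unfold LL LR
  simp only [pd_ofReal _ F hF, pd_ofReal _ _ (contDiff_pd _ F hF)]
  push_cast
  ring

theorem contDiff_ofReal_iff (F : R4 → ℝ) :
    ContDiff ℝ ∞ (fun x => (F x : ℂ)) ↔ ContDiff ℝ ∞ F := by
  constructor
  · intro h
    have := contDiff_re _ h
    simpa using this
  · intro h
    exact Complex.ofRealCLM.contDiff.comp h

theorem isSol_ofReal_iff (a b c m : ℝ → ℝ → ℝ) (σ : ℝ) (F : R4 → ℝ) :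
    IsSol a b c m σ (fun x => (F x : ℂ)) ↔
      ContDiff ℝ ∞ F ∧ IsPeriodic (n := 3) F ∧
        (∀ x ∈ slab 3, LR a b c F x = m (x 0) (x 1) * F x) ∧
        (∀ x : R4, x 0 = 0 → -pd 0 F x = σ * F x) ∧
        (∀ x : R4, x 0 = π → pd 0 F x = σ * F x) := by
  constructor
  · intro h
    have hF : ContDiff ℝ ∞ F := (contDiff_ofReal_iff F).1 h.smooth
    refine ⟨hF, ?_, ?_, ?_, ?_⟩
    · intro x i
      have := h.per x i.succ (Fin.succ_ne_zero i)
      exact_mod_cast this
    · intro x hx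
      have := h.pde x hx
      rw [LL_ofReal a b c F hF] at this
      exact_mod_cast this
    · intro x hx
      have := h.bc0 x hx
      rw [pd_ofReal 0 F hF] at this
      simp only at this
      exact_mod_cast this
    · intro x hx
      have := h.bcπ x hx
      rw [pd_ofReal 0 F hF] at this
      simp only at this
      exact_mod_cast this
  · rintro ⟨hF, hper, hpde, h0, hπ⟩
    refine ⟨(contDiff_ofReal_iff F).2 hF, ?_, ?_, ?_, ?_⟩
    · intro x k hk
      obtain ⟨i, rfl⟩ := Fin.exists_succ_eq.2 hk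
      exact_mod_cast hper x i
    · intro x hx
      rw [LL_ofReal a b c F hF]
      exact_mod_cast hpde x hx
    · intro x hx
      rw [pd_ofReal 0 F hF]
      simp only
      exact_mod_cast h0 x hx
    · intro x hx
      rw [pd_ofReal 0 F hF]
      simp only
      exact_mod_cast hπ x hx

/-! ### The Laplacians -/

theorem fderiv_of_const_line (A : R4 → ℝ) (hA : Differentiable ℝ A) (x v : R4)
    (h : ∀ t : ℝ, A (x + t • v) = A x) : fderiv ℝ A x v = 0 := by
  have h1 : HasDerivAt (fun t : ℝ => A (x + t • v)) (fderiv ℝ A x v) 0 := by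
    have h2 : HasFDerivAt A (fderiv ℝ A x) (x + (0 : ℝ) • v) := by
      simpa using (hA x).hasFDerivAt
    have h3 : HasDerivAt (fun a : ℝ => x + a • v) v 0 := by
      simpa using ((hasDerivAt_id (0 : ℝ)).smul_const v).const_add x
    exact h2.comp_hasDerivAt (0 : ℝ) h3
  have h4 : HasDerivAt (fun t : ℝ => A (x + t • v)) 0 0 := by
    have : (fun t : ℝ => A (x + t • v)) = fun _ => A x := by ext t; exact h t
    rw [this]; exact hasDerivAt_const _ _
  exact h1.unique h4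

theorem pd_coef_mul (k : Fin (3 + 1)) (hk0 : k ≠ 0) (hk1 : k ≠ 1) (a : ℝ → ℝ → ℝ)
    (ha : ContDiff ℝ ∞ (fun x : R4 => a (x 0) (x 1))) (F : R4 → ℝ) (hF : ContDiff ℝ ∞ F) (x : R4) :
    pd k (fun y => a (y 0) (y 1) * F y) x = a (x 0) (x 1) * pd k F x := by
  unfold pd
  rw [fderiv_fun_mul ((ha.differentiable (by simp)) x) ((hF.differentiable (by simp)) x)]
  have h1 : fderiv ℝ (fun x : R4 => a (x 0) (x 1)) x (Pi.single k 1) = 0 := by
    apply fderiv_of_const_line _ (ha.differentiable (by simp))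
    intro t
    have e0 := add_ev_ne k 0 (Ne.symm hk0) x t
    have e1 := add_ev_ne k 1 (Ne.symm hk1) x t
    unfold ev at e0 e1
    rw [e0, e1]
  simp only [_root_.add_apply, _root_.smul_apply, smul_eq_mul]
  rw [h1, mul_zero, add_zero]

theorem pd_add_real (i : Fin (3 + 1)) (F G : R4 → ℝ) (hF : ContDiff ℝ ∞ F)
    (hG : ContDiff ℝ ∞ G) (x : R4) :
    pd i (fun y => F y + G y) x = pd i F x + pd i G x := by
  unfold pd
  rw [fderiv_fun_add ((hF.differentiable (by simp)) x) ((hG.differentiable (by simp)) x)]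
  rfl

theorem pd_const_mul_real (i : Fin (3 + 1)) (F : R4 → ℝ) (hF : ContDiff ℝ ∞ F) (z : ℝ)
    (x : R4) : pd i (fun y => z * F y) x = z * pd i F x := by
  unfold pd
  rw [fderiv_const_mul ((hF.differentiable (by simp)) x)]
  rfl

/-- divergence of the flux -/
theorem div_flux (a b c : ℝ → ℝ → ℝ)
    (ha : ContDiff ℝ ∞ (fun x : R4 => a (x 0) (x 1)))
    (hb : ContDiff ℝ ∞ (fun x : R4 => b (x 0) (x 1)))
    (hc : ContDiff ℝ ∞ (fun x : R4 => c (x 0) (x 1)))
    (F : R4 → ℝ) (hF : ContDiff ℝ ∞ F) (x : R4) :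
    pd 0 (fun y => 100 * pd 0 F y) x + pd 1 (fun y => 100 * pd 1 F y) x +
      pd 2 (fun y => a (y 0) (y 1) * pd 2 F y + b (y 0) (y 1) * pd 3 F y) x +
      pd 3 (fun y => b (y 0) (y 1) * pd 2 F y + c (y 0) (y 1) * pd 3 F y) x =
      100 * LR a b c F x := by
  have hd : ∀ i, ContDiff ℝ ∞ (pd i F) := fun i => contDiff_pd i F hF
  rw [pd_const_mul_real _ _ (hd 0), pd_const_mul_real _ _ (hd 1),
    pd_add_real _ _ _ (ha.mul (hd 2)) (hb.mul (hd 3)),
    pd_add_real _ _ _ (hb.mul (hd 2)) (hc.mul (hd 3)),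
    pd_coef_mul 2 (by decide) (by decide) a ha _ (hd 2),
    pd_coef_mul 2 (by decide) (by decide) b hb _ (hd 3),
    pd_coef_mul 3 (by decide) (by decide) b hb _ (hd 2),
    pd_coef_mul 3 (by decide) (by decide) c hc _ (hd 3)]
  unfold LR
  ring

def a₁ (r x : ℝ) : ℝ := C r + S r * Real.cos x
def b₁ (r x : ℝ) : ℝ := S r * Real.sin x
def c₁ (r x : ℝ) : ℝ := C r - S r * Real.cos x
def zer (_ _ : ℝ) : ℝ := 0

theorem laplacian_metric₁ (F : R4 → ℝ) (hF : ContDiff ℝ ∞ F) (x : R4) :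
    laplacian metric₁ F x = -LR a₁ b₁ c₁ F x := by
  have h := div_flux a₁ b₁ c₁ contDiff_plus contDiff_off contDiff_minus F hF x
  unfold laplacian
  have hdet : ∀ y : R4, √(metric₁.coeff y).det = 100 := by
    intro y
    change √(M1 y).det = 100
    rw [M1_det, Real.sqrt_sq (by norm_num)]
  have hinv : ∀ y : R4, (metric₁.coeff y)⁻¹ = N1 y := M1_inv
  simp only [hdet, hinv]
  have e0 : (fun y : R4 => 100 * ∑ j, N1 y 0 j * pd j F y) = fun y => 100 * pd 0 F y := by
    ext y; simp [N1, Fin.sum_univ_succ]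
  have e1 : (fun y : R4 => 100 * ∑ j, N1 y 1 j * pd j F y) = fun y => 100 * pd 1 F y := by
    ext y; simp [N1, Fin.sum_univ_succ]
  have e2 : (fun y : R4 => 100 * ∑ j, N1 y 2 j * pd j F y) =
      fun y => a₁ (y 0) (y 1) * pd 2 F y + b₁ (y 0) (y 1) * pd 3 F y := by
    ext y; simp [N1, Fin.sum_univ_succ, a₁, b₁]; ring
  have e3 : (fun y : R4 => 100 * ∑ j, N1 y 3 j * pd j F y) =
      fun y => b₁ (y 0) (y 1) * pd 2 F y + c₁ (y 0) (y 1) * pd 3 F y := by
    ext y; simp [N1, Fin.sum_univ_succ, b₁, c₁]; ring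
  rw [Fin.sum_univ_four, e0, e1, e2, e3, h]
  ring

theorem laplacian_metric₂ (F : R4 → ℝ) (hF : ContDiff ℝ ∞ F) (x : R4) :
    laplacian metric₂ F x = -((rho (x 0) (x 1))⁻¹ * LR rho zer rho F x) := by
  have hz : ContDiff ℝ ∞ (fun x : R4 => zer (x 0) (x 1)) := contDiff_const
  have h := div_flux rho zer rho contDiff_plus hz contDiff_plus F hF x
  unfold laplacian
  have hdet : ∀ y : R4, √(metric₂.coeff y).det = 100 * rho (y 0) (y 1) := by
    intro y
    change √(M2 y).det = _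
    have := rho_pos (y 0) (y 1)
    rw [M2_det, Real.sqrt_sq (by positivity)]
  have hinv : ∀ y : R4, (metric₂.coeff y)⁻¹ = N2 y := M2_inv
  simp only [hdet, hinv]
  have e0 : (fun y : R4 => 100 * rho (y 0) (y 1) * ∑ j, N2 y 0 j * pd j F y) =
      fun y => 100 * pd 0 F y := by
    ext y
    have := (rho_pos (y 0) (y 1)).ne'
    simp [N2, Fin.sum_univ_succ]; field_simp
  have e1 : (fun y : R4 => 100 * rho (y 0) (y 1) * ∑ j, N2 y 1 j * pd j F y) =
      fun y => 100 * pd 1 F y := by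
    ext y
    have := (rho_pos (y 0) (y 1)).ne'
    simp [N2, Fin.sum_univ_succ]; field_simp
  have e2 : (fun y : R4 => 100 * rho (y 0) (y 1) * ∑ j, N2 y 2 j * pd j F y) =
      fun y => rho (y 0) (y 1) * pd 2 F y + zer (y 0) (y 1) * pd 3 F y := by
    ext y; simp [N2, Fin.sum_univ_succ, zer]; ring
  have e3 : (fun y : R4 => 100 * rho (y 0) (y 1) * ∑ j, N2 y 3 j * pd j F y) =
      fun y => zer (y 0) (y 1) * pd 2 F y + rho (y 0) (y 1) * pd 3 F y := by
    ext y; simp [N2, Fin.sum_univ_succ, zer]; ring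
  rw [Fin.sum_univ_four, e0, e1, e2, e3, h]
  have := (rho_pos (x 0) (x 1)).ne'
  field_simp

/-! ### Boundary normals -/

theorem normal_iff (g : RiemannianMetric 3) (x : R4)
    (hg : ∀ v : R4, (g.coeff x).mulVec v = ![v 0, v 1, 100 * v 2, 100 * v 3]) (ν : R4) :
    IsOutwardUnitNormal g x ν ↔
      (x 0 = 0 ∧ ν = -Pi.single 0 1) ∨ (x 0 = π ∧ ν = Pi.single 0 1) := by
  unfold IsOutwardUnitNormal
  rw [hg]
  constructor
  · rintro ⟨h1, h2, h3⟩
    have k1 : ν 1 = 0 := by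
      have := h2 (Pi.single 1 1) (by simp)
      simpa [dotProduct, Fin.sum_univ_succ] using this
    have k2 : ν 2 = 0 := by
      have := h2 (Pi.single 2 1) (by simp)
      simpa [dotProduct, Fin.sum_univ_succ, Pi.single_apply] using this
    have k3 : ν 3 = 0 := by
      have := h2 (Pi.single 3 1) (by simp)
      simpa [dotProduct, Fin.sum_univ_succ, Pi.single_apply] using this
    have k0 : ν 0 * ν 0 = 1 := by
      have := h1
      simp [dotProduct, Fin.sum_univ_succ, k1, k2, k3] at this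
      exact this
    have hν : ν = ν 0 • Pi.single 0 1 := by
      ext i
      fin_cases i
      · simp
      · simpa using k1
      · simpa using k2
      · simpa using k3
    rcases h3 with ⟨hx, hneg⟩ | ⟨hx, hpos⟩
    · left
      refine ⟨hx, ?_⟩
      have : ν 0 = -1 := by nlinarith
      rw [hν, this]; simp
    · right
      refine ⟨hx, ?_⟩
      have : ν 0 = 1 := by nlinarith
      rw [hν, this]; simp
  · rintro (⟨hx, rfl⟩ | ⟨hx, rfl⟩)
    · refine ⟨?_, ?_, ?_⟩
      · simp [dotProduct, Fin.sum_univ_succ]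
      · intro w hw
        simp [dotProduct, Fin.sum_univ_succ, hw]
      · left; exact ⟨hx, by simp⟩
    · refine ⟨?_, ?_, ?_⟩
      · simp [dotProduct, Fin.sum_univ_succ]
      · intro w hw
        simp [dotProduct, Fin.sum_univ_succ, hw]
      · right; exact ⟨hx, by simp⟩

theorem metric₁_bdry (x : R4) (hS : S (x 0) = 0) (hC : C (x 0) = 1) (v : R4) :
    (metric₁.coeff x).mulVec v = ![v 0, v 1, 100 * v 2, 100 * v 3] := by
  change (M1 x).mulVec v = _
  ext i
  fin_cases i <;> simp [M1, Matrix.mulVec, dotProduct, Fin.sum_univ_succ, hS, hC]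

theorem metric₂_bdry (x : R4) (hS : S (x 0) = 0) (hC : C (x 0) = 1) (v : R4) :
    (metric₂.coeff x).mulVec v = ![v 0, v 1, 100 * v 2, 100 * v 3] := by
  change (M2 x).mulVec v = _
  ext i
  fin_cases i <;> simp [M2, rho, Matrix.mulVec, dotProduct, Fin.sum_univ_succ, hS, hC]

theorem normal_metric (g : RiemannianMetric 3) (hg : ∀ x : R4, S (x 0) = 0 → C (x 0) = 1 →
    ∀ v : R4, (g.coeff x).mulVec v = ![v 0, v 1, 100 * v 2, 100 * v 3]) (x ν : R4) :
    IsOutwardUnitNormal g x ν ↔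
      (x 0 = 0 ∧ ν = -Pi.single 0 1) ∨ (x 0 = π ∧ ν = Pi.single 0 1) := by
  by_cases hx : x 0 = 0 ∨ x 0 = π
  · have hS : S (x 0) = 0 := by
      rcases hx with h | h <;> rw [h]
      · exact S_zero
      · exact S_pi
    have hC : C (x 0) = 1 := by
      rcases hx with h | h <;> rw [h]
      · exact C_zero
      · exact C_pi
    exact normal_iff g x (hg x hS hC) ν
  · push Not at hx
    constructor
    · rintro ⟨_, _, h | h⟩
      · exact absurd h.1 hx.1
      · exact absurd h.1 hx.2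
    · rintro (h | h)
      · exact absurd h.1 hx.1
      · exact absurd h.1 hx.2

theorem bc_iff (g : RiemannianMetric 3) (hg : ∀ x : R4, S (x 0) = 0 → C (x 0) = 1 →
    ∀ v : R4, (g.coeff x).mulVec v = ![v 0, v 1, 100 * v 2, 100 * v 3]) (F : R4 → ℝ) (σ : ℝ) :
    (∀ x ν : R4, IsOutwardUnitNormal g x ν → fderiv ℝ F x ν = σ * F x) ↔
      (∀ x : R4, x 0 = 0 → -pd 0 F x = σ * F x) ∧
        (∀ x : R4, x 0 = π → pd 0 F x = σ * F x) := by
  constructor
  · intro h
    constructor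
    · intro x hx
      have := h x (-Pi.single 0 1) ((normal_metric g hg x _).2 (Or.inl ⟨hx, rfl⟩))
      rw [map_neg] at this
      exact this
    · intro x hx
      exact h x (Pi.single 0 1) ((normal_metric g hg x _).2 (Or.inr ⟨hx, rfl⟩))
  · rintro ⟨h0, hπ⟩ x ν hν
    rcases (normal_metric g hg x ν).1 hν with ⟨hx, rfl⟩ | ⟨hx, rfl⟩
    · rw [map_neg]
      exact h0 x hx
    · exact hπ x hx

/-! ### Eigenfunctions as solutions -/

theorem isEigen₁ (lam σ : ℝ) :
    {f : slab 3 → ℝ | IsEigenfunction metric₁ lam σ f} =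
      (V a₁ b₁ c₁ (fun _ _ => -lam) σ : Set (slab 3 → ℝ)) := by
  ext f
  constructor
  · rintro ⟨F, hF, hper, hFf, hlap, hbc⟩
    refine ⟨F, (isSol_ofReal_iff _ _ _ _ _ _).2 ⟨hF, hper, ?_, ?_⟩, hFf⟩
    · intro x hx
      have := hlap x hx
      rw [laplacian_metric₁ F hF] at this
      linarith
    · exact (bc_iff metric₁ metric₁_bdry F σ).1 hbc
  · rintro ⟨F, hF, hFf⟩
    obtain ⟨hF, hper, hpde, hbc⟩ := (isSol_ofReal_iff _ _ _ _ _ _).1 hF
    refine ⟨F, hF, hper, hFf, ?_, (bc_iff metric₁ metric₁_bdry F σ).2 hbc⟩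
    intro x hx
    rw [laplacian_metric₁ F hF, hpde x hx]
    ring

theorem isEigen₂ (lam σ : ℝ) :
    {f : slab 3 → ℝ | IsEigenfunction metric₂ lam σ f} =
      (V rho zer rho (fun r x => -(lam * rho r x)) σ : Set (slab 3 → ℝ)) := by
  ext f
  constructor
  · rintro ⟨F, hF, hper, hFf, hlap, hbc⟩
    refine ⟨F, (isSol_ofReal_iff _ _ _ _ _ _).2 ⟨hF, hper, ?_, ?_⟩, hFf⟩
    · intro x hx
      have := hlap x hx
      rw [laplacian_metric₂ F hF] at this
      have hr := (rho_pos (x 0) (x 1)).ne'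
      field_simp at this
      linarith
    · exact (bc_iff metric₂ metric₂_bdry F σ).1 hbc
  · rintro ⟨F, hF, hFf⟩
    obtain ⟨hF, hper, hpde, hbc⟩ := (isSol_ofReal_iff _ _ _ _ _ _).1 hF
    refine ⟨F, hF, hper, hFf, ?_, (bc_iff metric₂ metric₂_bdry F σ).2 hbc⟩
    intro x hx
    rw [laplacian_metric₂ F hF, hpde x hx]
    have hr := (rho_pos (x 0) (x 1)).ne'
    field_simp

end

end Pool.Agent.H65.Steklov
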