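import Mathlib

set_option autoImplicit false

open scoped ContDiff Real
open Set Filter Topology

namespace Pool.Agent.H65

/-- first order condition at a left endpoint maximum -/
theorem deriv_nonpos_of_max_right {φ : ℝ → ℝ} {φ' a b : ℝ} (hab : a < b)
    (hd : HasDerivAt φ φ' a) (hmax : ∀ t ∈ Icc a b, φ t ≤ φ a) : φ' ≤ 0 := by
  have h1 : Tendsto (slope φ a) (𝓝[>] a) (𝓝 φ') :=
    (hasDerivAt_iff_tendsto_slope.1 hd).mono_left (nhdsWithin_mono _ (fun x hx => ne_of_gt hx))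
  refine le_of_tendsto h1 ?_
  filter_upwards [Ioo_mem_nhdsGT hab] with t ht
  rw [slope_def_field]
  apply div_nonpos_of_nonpos_of_nonneg
  · linarith [hmax t ⟨ht.1.le, ht.2.le⟩]
  · linarith [ht.1]

/-- first order condition at a right endpoint maximum -/
theorem deriv_nonneg_of_max_left {φ : ℝ → ℝ} {φ' a b : ℝ} (hab : a < b)
    (hd : HasDerivAt φ φ' b) (hmax : ∀ t ∈ Icc a b, φ t ≤ φ b) : 0 ≤ φ' := by
  have h1 : Tendsto (slope φ b) (𝓝[<] b) (𝓝 φ') :=
    (hasDerivAt_iff_tendsto_slope.1 hd).mono_left (nhdsWithin_mono _ (fun x hx => ne_of_lt hx))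
  refine ge_of_tendsto h1 ?_
  filter_upwards [Ioo_mem_nhdsLT hab] with t ht
  rw [slope_def_field]
  apply div_nonneg_of_nonpos
  · linarith [hmax t ⟨ht.1.le, ht.2.le⟩]
  · linarith [ht.2]

/-- second order condition at an interior maximum -/
theorem deriv2_nonpos_of_max {φ φ' : ℝ → ℝ} {φ'' c : ℝ}
    (hd : ∀ t, HasDerivAt φ (φ' t) t) (hd2 : HasDerivAt φ' φ'' c)
    (hmax : IsLocalMax φ c) : φ'' ≤ 0 := by
  by_contra hpos
  push Not at hpos
  have hderiv : deriv φ = φ' := by ext1 t; exact (hd t).deriv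
  have h0 : φ' c = 0 := hmax.hasDerivAt_eq_zero (hd c)
  have hmin : IsLocalMin φ c := by
    apply isLocalMin_of_deriv_deriv_pos
    · rw [hderiv, hd2.deriv]; exact hpos
    · rw [hderiv]; exact h0
    · exact (hd c).continuousAt
  have hconst : φ =ᶠ[𝓝 c] fun _ => φ c := by
    filter_upwards [hmax, hmin] with t h1 h2
    exact le_antisymm h1 h2
  have h1 : φ' =ᶠ[𝓝 c] fun _ => 0 := by
    have h2 := hconst.eventuallyEq_nhds
    filter_upwards [h2] with t ht
    have h3 : deriv φ t = deriv (fun _ => φ c) t := ht.deriv_eq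
    rw [hderiv] at h3
    simpa using h3
  have h4 : deriv φ' c = 0 := by
    rw [h1.deriv_eq]; simp
  rw [hd2.deriv] at h4
  linarith

/-- Uniqueness in presence of a strict positive supersolution: one-sided version. -/
theorem nonpos_of_supersolution
    (W Wr Wrr Wx Wxx h hr hrr hx hxx q : ℝ → ℝ → ℝ) (σ : ℝ)
    (cW : Continuous fun p : ℝ × ℝ => W p.1 p.2)
    (ch : Continuous fun p : ℝ × ℝ => h p.1 p.2)
    (perW : ∀ r x, W r (x + 2 * π) = W r x) (perh : ∀ r x, h r (x + 2 * π) = h r x)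
    (dWr : ∀ r x, HasDerivAt (fun t => W t x) (Wr r x) r)
    (dWrr : ∀ r x, HasDerivAt (fun t => Wr t x) (Wrr r x) r)
    (dWx : ∀ r x, HasDerivAt (fun t => W r t) (Wx r x) x)
    (dWxx : ∀ r x, HasDerivAt (fun t => Wx r t) (Wxx r x) x)
    (dhr : ∀ r x, HasDerivAt (fun t => h t x) (hr r x) r)
    (dhrr : ∀ r x, HasDerivAt (fun t => hr t x) (hrr r x) r)
    (dhx : ∀ r x, HasDerivAt (fun t => h r t) (hx r x) x)
    (dhxx : ∀ r x, HasDerivAt (fun t => hx r t) (hxx r x) x)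
    (pde : ∀ r ∈ Icc 0 π, ∀ x, Wrr r x + Wxx r x = q r x * W r x)
    (sup : ∀ r ∈ Icc 0 π, ∀ x, hrr r x + hxx r x < q r x * h r x)
    (hpos : ∀ r ∈ Icc 0 π, ∀ x, 0 < h r x)
    (bc0 : ∀ x, -Wr 0 x = σ * W 0 x) (bcπ : ∀ x, Wr π x = σ * W π x)
    (sbc0 : ∀ x, σ * h 0 x < -hr 0 x) (sbcπ : ∀ x, σ * h π x < hr π x) :
    ∀ r ∈ Icc 0 π, ∀ x, W r x ≤ 0 := by
  -- maximum of W / h on the compact rectangle
  have hK : IsCompact ((Icc (0 : ℝ) π) ×ˢ (Icc (0 : ℝ) (2 * π))) := isCompact_Icc.prod isCompact_Icc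
  have hne : ((Icc (0 : ℝ) π) ×ˢ (Icc (0 : ℝ) (2 * π))).Nonempty :=
    ⟨(0, 0), ⟨⟨le_rfl, Real.pi_pos.le⟩, ⟨le_rfl, Real.two_pi_pos.le⟩⟩⟩
  have hcont : ContinuousOn (fun p : ℝ × ℝ => W p.1 p.2 / h p.1 p.2)
      ((Icc (0 : ℝ) π) ×ˢ (Icc (0 : ℝ) (2 * π))) := by
    apply ContinuousOn.div cW.continuousOn ch.continuousOn
    intro p hp
    exact (hpos p.1 hp.1 p.2).ne'
  obtain ⟨⟨r₀, x₀⟩, ⟨hr₀, hx₀⟩, hmax⟩ := hK.exists_isMaxOn hne hcont
  simp only at hr₀ hx₀
  set M := W r₀ x₀ / h r₀ x₀ with hM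
  have hper : ∀ r x, W r x / h r x = W r (toIcoMod Real.two_pi_pos 0 x) /
      h r (toIcoMod Real.two_pi_pos 0 x) := by
    intro r x
    have hWp : Function.Periodic (W r) (2 * π) := perW r
    have hhp : Function.Periodic (h r) (2 * π) := perh r
    have e1 : W r (toIcoMod Real.two_pi_pos 0 x) = W r x := by
      rw [toIcoMod, hWp.sub_zsmul_eq]
    have e2 : h r (toIcoMod Real.two_pi_pos 0 x) = h r x := by
      rw [toIcoMod, hhp.sub_zsmul_eq]
    rw [e1, e2]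
  have hall : ∀ r ∈ Icc 0 π, ∀ x, W r x ≤ M * h r x := by
    intro r hr x
    rw [← div_le_iff₀ (hpos r hr x), hper]
    have hm := toIcoMod_mem_Ico Real.two_pi_pos 0 x
    have : (r, toIcoMod Real.two_pi_pos 0 x) ∈ (Icc (0 : ℝ) π) ×ˢ (Icc (0 : ℝ) (2 * π)) :=
      ⟨hr, ⟨hm.1, by linarith [hm.2]⟩⟩
    exact hmax this
  have heq : W r₀ x₀ = M * h r₀ x₀ := by
    rw [hM, div_mul_cancel₀ _ (hpos r₀ hr₀ x₀).ne']
  suffices hM0 : M ≤ 0 by
    intro r hr x
    exact (hall r hr x).trans (mul_nonpos_of_nonpos_of_nonneg hM0 (hpos r hr x).le)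
  by_contra hMpos
  push Not at hMpos
  -- z = W - M h
  have dzr : ∀ r x, HasDerivAt (fun t => W t x - M * h t x) (Wr r x - M * hr r x) r :=
    fun r x => (dWr r x).sub ((dhr r x).const_mul M)
  have dzrr : ∀ r x, HasDerivAt (fun t => Wr t x - M * hr t x) (Wrr r x - M * hrr r x) r :=
    fun r x => (dWrr r x).sub ((dhrr r x).const_mul M)
  have dzx : ∀ r x, HasDerivAt (fun t => W r t - M * h r t) (Wx r x - M * hx r x) x :=
    fun r x => (dWx r x).sub ((dhx r x).const_mul M)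
  have dzxx : ∀ r x, HasDerivAt (fun t => Wx r t - M * hx r t) (Wxx r x - M * hxx r x) x :=
    fun r x => (dWxx r x).sub ((dhxx r x).const_mul M)
  rcases eq_or_lt_of_le hr₀.1 with h0 | h0
  · -- r₀ = 0
    subst h0
    have h1 : Wr 0 x₀ - M * hr 0 x₀ ≤ 0 := by
      apply deriv_nonpos_of_max_right Real.pi_pos (dzr 0 x₀)
      intro t ht
      have := hall t ht x₀
      linarith
    have h2 := bc0 x₀
    have h3 := sbc0 x₀
    have h4 : M * (σ * h 0 x₀) < M * (-hr 0 x₀) := mul_lt_mul_of_pos_left h3 hMpos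
    rw [heq] at h2
    nlinarith
  · rcases eq_or_lt_of_le hr₀.2 with h5 | h5
    · -- r₀ = π
      subst h5
      have h1 : 0 ≤ Wr π x₀ - M * hr π x₀ := by
        apply deriv_nonneg_of_max_left Real.pi_pos (dzr π x₀)
        intro t ht
        have := hall t ht x₀
        linarith
      have h2 := bcπ x₀
      have h3 := sbcπ x₀
      have h4 : M * (σ * h π x₀) < M * (hr π x₀) := mul_lt_mul_of_pos_left h3 hMpos
      rw [heq] at h2
      nlinarith
    · -- interior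
      have h1 : Wrr r₀ x₀ - M * hrr r₀ x₀ ≤ 0 := by
        apply deriv2_nonpos_of_max (fun t => dzr t x₀) (dzrr r₀ x₀)
        filter_upwards [Ioo_mem_nhds h0 h5] with t ht
        have := hall t ⟨ht.1.le, ht.2.le⟩ x₀
        linarith
      have h2 : Wxx r₀ x₀ - M * hxx r₀ x₀ ≤ 0 := by
        apply deriv2_nonpos_of_max (fun t => dzx r₀ t) (dzxx r₀ x₀)
        refine Eventually.of_forall (fun t => ?_)
        have := hall r₀ hr₀ t
        simp only
        linarith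
      have h3 := pde r₀ hr₀ x₀
      have h4 := sup r₀ hr₀ x₀
      have h6 : M * (hrr r₀ x₀ + hxx r₀ x₀) < M * (q r₀ x₀ * h r₀ x₀) :=
        mul_lt_mul_of_pos_left h4 hMpos
      rw [heq] at h3
      nlinarith

/-- Uniqueness in presence of a strict positive supersolution. -/
theorem eq_zero_of_supersolution
    (W Wr Wrr Wx Wxx h hr hrr hx hxx q : ℝ → ℝ → ℝ) (σ : ℝ)
    (cW : Continuous fun p : ℝ × ℝ => W p.1 p.2)
    (ch : Continuous fun p : ℝ × ℝ => h p.1 p.2)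
    (perW : ∀ r x, W r (x + 2 * π) = W r x) (perh : ∀ r x, h r (x + 2 * π) = h r x)
    (dWr : ∀ r x, HasDerivAt (fun t => W t x) (Wr r x) r)
    (dWrr : ∀ r x, HasDerivAt (fun t => Wr t x) (Wrr r x) r)
    (dWx : ∀ r x, HasDerivAt (fun t => W r t) (Wx r x) x)
    (dWxx : ∀ r x, HasDerivAt (fun t => Wx r t) (Wxx r x) x)
    (dhr : ∀ r x, HasDerivAt (fun t => h t x) (hr r x) r)
    (dhrr : ∀ r x, HasDerivAt (fun t => hr t x) (hrr r x) r)
    (dhx : ∀ r x, HasDerivAt (fun t => h r t) (hx r x) x)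
    (dhxx : ∀ r x, HasDerivAt (fun t => hx r t) (hxx r x) x)
    (pde : ∀ r ∈ Icc 0 π, ∀ x, Wrr r x + Wxx r x = q r x * W r x)
    (sup : ∀ r ∈ Icc 0 π, ∀ x, hrr r x + hxx r x < q r x * h r x)
    (hpos : ∀ r ∈ Icc 0 π, ∀ x, 0 < h r x)
    (bc0 : ∀ x, -Wr 0 x = σ * W 0 x) (bcπ : ∀ x, Wr π x = σ * W π x)
    (sbc0 : ∀ x, σ * h 0 x < -hr 0 x) (sbcπ : ∀ x, σ * h π x < hr π x) :
    ∀ r ∈ Icc 0 π, ∀ x, W r x = 0 := by
  intro r hr x
  apply le_antisymm
  · exact nonpos_of_supersolution W Wr Wrr Wx Wxx h _ hrr hx hxx q σ cW ch perW perh dWr dWrr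
      dWx dWxx dhr dhrr dhx dhxx pde sup hpos bc0 bcπ sbc0 sbcπ r hr x
  · have := nonpos_of_supersolution (fun r x => -W r x) (fun r x => -Wr r x)
      (fun r x => -Wrr r x) (fun r x => -Wx r x) (fun r x => -Wxx r x) h _ hrr hx hxx q σ
      cW.neg ch (fun r x => by simp only [perW]) perh (fun r x => (dWr r x).neg)
      (fun r x => (dWrr r x).neg)
      (fun r x => (dWx r x).neg) (fun r x => (dWxx r x).neg) dhr dhrr dhx dhxx
      (fun r hr x => by have := pde r hr x; linarith) sup hpos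
      (fun x => by have := bc0 x; linarith) (fun x => by have := bcπ x; linarith)
      sbc0 sbcπ r hr x
    linarith

end Pool.Agent.H65
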