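import Pool.Agent.H65.Rank

set_option autoImplicit false

open scoped ContDiff Real
open Set

namespace Pool.Agent.H65.Steklov

noncomputable section

/-! ### The coefficient functions -/

/-- `S(r) = sin² r` -/
def S (r : ℝ) : ℝ := Real.sin r ^ 2

/-- `C(r) = √(1 + S(r)²)` -/
def C (r : ℝ) : ℝ := √(1 + S r ^ 2)

theorem S_nonneg (r : ℝ) : 0 ≤ S r := sq_nonneg _
theorem S_le_one (r : ℝ) : S r ≤ 1 := Real.sin_sq_le_one r
theorem C_sq (r : ℝ) : C r ^ 2 = 1 + S r ^ 2 := Real.sq_sqrt (by positivity)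
theorem C_pos (r : ℝ) : 0 < C r := Real.sqrt_pos.2 (by positivity)
theorem one_le_C (r : ℝ) : 1 ≤ C r := by
  have h1 := C_sq r
  have h2 := C_pos r
  nlinarith [sq_nonneg (S r)]
theorem C_sub_S (r : ℝ) : 2 / 5 ≤ C r - S r := by
  have h1 := C_sq r
  have h2 := C_pos r
  have h3 := S_nonneg r
  have h4 := S_le_one r
  by_contra h
  push Not at h
  have h5 : C r < S r + 2 / 5 := by linarith
  have h6 : C r ^ 2 < (S r + 2 / 5) ^ 2 := by
    apply pow_lt_pow_left₀ h5 h2.le (by norm_num)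
  nlinarith
theorem S_zero : S 0 = 0 := by simp [S]
theorem S_pi : S π = 0 := by simp [S]
theorem C_zero : C 0 = 1 := by simp [C, S_zero]
theorem C_pi : C π = 1 := by simp [C, S_pi]

theorem contDiff_S : ContDiff ℝ ∞ S := by
  unfold S
  exact Real.contDiff_sin.pow 2

theorem contDiff_C : ContDiff ℝ ∞ C := by
  unfold C
  apply ContDiff.sqrt
  · exact contDiff_const.add (contDiff_S.pow 2)
  · intro x; positivity

/-- `ρ(r, x) = C(r) + S(r) cos x` -/
def rho (r x : ℝ) : ℝ := C r + S r * Real.cos x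

theorem rho_pos (r x : ℝ) : 0 < rho r x := by
  unfold rho
  have h1 := C_sub_S r
  have h2 := Real.neg_one_le_cos x
  have h3 := S_nonneg r
  nlinarith

/-! ### The matrices of the two metrics -/

def M1 (x : R4) : Matrix (Fin (3 + 1)) (Fin (3 + 1)) ℝ :=
  !![1, 0, 0, 0;
     0, 1, 0, 0;
     0, 0, 100 * (C (x 0) - S (x 0) * Real.cos (x 1)), -(100 * (S (x 0) * Real.sin (x 1)));
     0, 0, -(100 * (S (x 0) * Real.sin (x 1))), 100 * (C (x 0) + S (x 0) * Real.cos (x 1))]

def M2 (x : R4) : Matrix (Fin (3 + 1)) (Fin (3 + 1)) ℝ :=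
  !![rho (x 0) (x 1), 0, 0, 0;
     0, rho (x 0) (x 1), 0, 0;
     0, 0, 100, 0;
     0, 0, 0, 100]

def N1 (x : R4) : Matrix (Fin (3 + 1)) (Fin (3 + 1)) ℝ :=
  !![1, 0, 0, 0;
     0, 1, 0, 0;
     0, 0, (1 / 100) * (C (x 0) + S (x 0) * Real.cos (x 1)), (1 / 100) * (S (x 0) * Real.sin (x 1));
     0, 0, (1 / 100) * (S (x 0) * Real.sin (x 1)), (1 / 100) * (C (x 0) - S (x 0) * Real.cos (x 1))]

def N2 (x : R4) : Matrix (Fin (3 + 1)) (Fin (3 + 1)) ℝ :=
  !![(rho (x 0) (x 1))⁻¹, 0, 0, 0;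
     0, (rho (x 0) (x 1))⁻¹, 0, 0;
     0, 0, 1 / 100, 0;
     0, 0, 0, 1 / 100]

theorem det_key (r x : ℝ) :
    (C r - S r * Real.cos x) * (C r + S r * Real.cos x) -
      (S r * Real.sin x) * (S r * Real.sin x) = 1 := by
  have h1 := C_sq r
  have h2 := Real.sin_sq_add_cos_sq x
  linear_combination h1 - S r ^ 2 * h2

theorem M1_inv (x : R4) : (M1 x)⁻¹ = N1 x := by
  apply Matrix.inv_eq_right_inv
  have h := det_key (x 0) (x 1)
  ext i j
  fin_cases i <;> fin_cases j <;>
    simp [M1, N1, Matrix.mul_apply, Fin.sum_univ_succ] <;>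
    first | linear_combination h | ring

theorem M2_inv (x : R4) : (M2 x)⁻¹ = N2 x := by
  apply Matrix.inv_eq_right_inv
  have h := (rho_pos (x 0) (x 1)).ne'
  ext i j
  fin_cases i <;> fin_cases j <;>
    simp [M2, N2, Matrix.mul_apply, Fin.sum_univ_succ, h]

theorem M1_det (x : R4) : (M1 x).det = 100 ^ 2 := by
  have h := det_key (x 0) (x 1)
  simp [M1, Matrix.det_succ_row_zero, Fin.sum_univ_succ, Fin.succAbove]
  linear_combination 10000 * h

theorem M2_det (x : R4) : (M2 x).det = (100 * rho (x 0) (x 1)) ^ 2 := by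
  simp [M2, Matrix.det_succ_row_zero, Fin.sum_univ_succ, Fin.succAbove]
  ring

/-! ### Positivity, smoothness, periodicity -/

theorem posDef_of_quad (M : Matrix (Fin (3 + 1)) (Fin (3 + 1)) ℝ) (hs : M.transpose = M)
    (h : ∀ v : R4, v ≠ 0 → 0 < v ⬝ᵥ M.mulVec v) : M.PosDef := by
  apply Matrix.PosDef.of_dotProduct_mulVec_pos
  · rw [Matrix.IsHermitian, Matrix.conjTranspose_eq_transpose_of_trivial, hs]
  · intro v hv
    simpa using h v hv

theorem quad_M1 (x v : R4) : v ⬝ᵥ (M1 x).mulVec v = v 0 ^ 2 + v 1 ^ 2 +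
    100 * ((C (x 0) - S (x 0) * Real.cos (x 1)) * v 2 ^ 2 -
      2 * (S (x 0) * Real.sin (x 1)) * v 2 * v 3 +
      (C (x 0) + S (x 0) * Real.cos (x 1)) * v 3 ^ 2) := by
  simp [M1, Matrix.mulVec, dotProduct, Fin.sum_univ_succ]
  ring

theorem quad_M2 (x v : R4) : v ⬝ᵥ (M2 x).mulVec v = rho (x 0) (x 1) * v 0 ^ 2 +
    rho (x 0) (x 1) * v 1 ^ 2 + 100 * v 2 ^ 2 + 100 * v 3 ^ 2 := by
  simp [M2, Matrix.mulVec, dotProduct, Fin.sum_univ_succ]
  ring

theorem M1_posDef (x : R4) : (M1 x).PosDef := by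
  apply posDef_of_quad
  · ext i j
    fin_cases i <;> fin_cases j <;> simp [M1, Matrix.transpose]
  · intro v hv
    rw [quad_M1]
    have h := det_key (x 0) (x 1)
    have hA : 0 < C (x 0) - S (x 0) * Real.cos (x 1) := by
      have h1 := C_sub_S (x 0)
      have h2 := Real.cos_le_one (x 1)
      have h3 := S_nonneg (x 0)
      nlinarith
    set A := C (x 0) - S (x 0) * Real.cos (x 1)
    set B := S (x 0) * Real.sin (x 1)
    set D := C (x 0) + S (x 0) * Real.cos (x 1)
    have key : A * (A * v 2 ^ 2 - 2 * B * v 2 * v 3 + D * v 3 ^ 2) =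
        (A * v 2 - B * v 3) ^ 2 + v 3 ^ 2 := by
      linear_combination v 3 ^ 2 * h
    have hnn : 0 ≤ A * v 2 ^ 2 - 2 * B * v 2 * v 3 + D * v 3 ^ 2 := by
      by_contra hneg
      push Not at hneg
      have : A * (A * v 2 ^ 2 - 2 * B * v 2 * v 3 + D * v 3 ^ 2) < 0 :=
        mul_neg_of_pos_of_neg hA hneg
      nlinarith [sq_nonneg (A * v 2 - B * v 3), sq_nonneg (v 3)]
    by_contra hle
    push Not at hle
    apply hv
    have e0 : v 0 ^ 2 = 0 := by nlinarith [sq_nonneg (v 0), sq_nonneg (v 1)]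
    have e1 : v 1 ^ 2 = 0 := by nlinarith [sq_nonneg (v 0), sq_nonneg (v 1)]
    have e23 : A * v 2 ^ 2 - 2 * B * v 2 * v 3 + D * v 3 ^ 2 = 0 := by
      nlinarith [sq_nonneg (v 0), sq_nonneg (v 1)]
    rw [e23, mul_zero] at key
    have e3 : v 3 ^ 2 = 0 := by nlinarith [sq_nonneg (A * v 2 - B * v 3), sq_nonneg (v 3)]
    have e3' : v 3 = 0 := by simpa using e3
    have e2 : (A * v 2 - B * v 3) ^ 2 = 0 := by nlinarith [sq_nonneg (A * v 2 - B * v 3)]
    rw [e3', mul_zero, sub_zero] at e2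
    have e2' : v 2 = 0 := by
      have : A * v 2 = 0 := by simpa using e2
      rcases mul_eq_zero.1 this with h | h
      · exact absurd h hA.ne'
      · exact h
    have e0' : v 0 = 0 := by simpa using e0
    have e1' : v 1 = 0 := by simpa using e1
    ext i
    fin_cases i
    · exact e0'
    · exact e1'
    · exact e2'
    · exact e3'

theorem M2_posDef (x : R4) : (M2 x).PosDef := by
  apply posDef_of_quad
  · ext i j
    fin_cases i <;> fin_cases j <;> simp [M2, Matrix.transpose]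
  · intro v hv
    rw [quad_M2]
    have h := rho_pos (x 0) (x 1)
    by_contra hle
    push Not at hle
    apply hv
    have h0 : 0 ≤ rho (x 0) (x 1) * v 0 ^ 2 := mul_nonneg h.le (sq_nonneg _)
    have h1 : 0 ≤ rho (x 0) (x 1) * v 1 ^ 2 := mul_nonneg h.le (sq_nonneg _)
    have e0 : rho (x 0) (x 1) * v 0 ^ 2 = 0 := by nlinarith [sq_nonneg (v 2), sq_nonneg (v 3)]
    have e1 : rho (x 0) (x 1) * v 1 ^ 2 = 0 := by nlinarith [sq_nonneg (v 2), sq_nonneg (v 3)]
    have e2 : v 2 ^ 2 = 0 := by nlinarith [sq_nonneg (v 2), sq_nonneg (v 3)]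
    have e3 : v 3 ^ 2 = 0 := by nlinarith [sq_nonneg (v 2), sq_nonneg (v 3)]
    have e0' : v 0 = 0 := by simpa [h.ne'] using e0
    have e1' : v 1 = 0 := by simpa [h.ne'] using e1
    have e2' : v 2 = 0 := by simpa using e2
    have e3' : v 3 = 0 := by simpa using e3
    ext i
    fin_cases i
    · exact e0'
    · exact e1'
    · exact e2'
    · exact e3'

theorem contDiff_coord (i : Fin (3 + 1)) : ContDiff ℝ ∞ (fun x : R4 => x i) := by fun_prop

theorem contDiff_S0 : ContDiff ℝ ∞ (fun x : R4 => S (x 0)) := contDiff_S.comp (contDiff_coord 0)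
theorem contDiff_C0 : ContDiff ℝ ∞ (fun x : R4 => C (x 0)) := contDiff_C.comp (contDiff_coord 0)
theorem contDiff_cos1 : ContDiff ℝ ∞ (fun x : R4 => Real.cos (x 1)) :=
  Real.contDiff_cos.comp (contDiff_coord 1)
theorem contDiff_sin1 : ContDiff ℝ ∞ (fun x : R4 => Real.sin (x 1)) :=
  Real.contDiff_sin.comp (contDiff_coord 1)

theorem contDiff_plus : ContDiff ℝ ∞ (fun x : R4 => C (x 0) + S (x 0) * Real.cos (x 1)) :=
  contDiff_C0.add (contDiff_S0.mul contDiff_cos1)
theorem contDiff_minus : ContDiff ℝ ∞ (fun x : R4 => C (x 0) - S (x 0) * Real.cos (x 1)) :=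
  contDiff_C0.sub (contDiff_S0.mul contDiff_cos1)
theorem contDiff_off : ContDiff ℝ ∞ (fun x : R4 => S (x 0) * Real.sin (x 1)) :=
  contDiff_S0.mul contDiff_sin1

theorem M1_smooth (i j : Fin (3 + 1)) : ContDiff ℝ ∞ (fun x => M1 x i j) := by
  fin_cases i <;> fin_cases j <;> simp [M1] <;>
    first
      | exact contDiff_const
      | exact contDiff_const.mul contDiff_minus
      | exact contDiff_const.mul contDiff_plus
      | exact (contDiff_const.mul contDiff_off).neg

theorem M2_smooth (i j : Fin (3 + 1)) : ContDiff ℝ ∞ (fun x => M2 x i j) := by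
  fin_cases i <;> fin_cases j <;> simp [M2] <;>
    first
      | exact contDiff_const
      | exact contDiff_plus

theorem add_single_zero (x : R4) (i : Fin 3) (t : ℝ) :
    (x + Pi.single i.succ t : R4) 0 = x 0 := by
  simp [Fin.succ_ne_zero]

theorem cos_sin_period (x : R4) (i : Fin 3) :
    Real.cos ((x + Pi.single i.succ (2 * π) : R4) 1) = Real.cos (x 1) ∧
    Real.sin ((x + Pi.single i.succ (2 * π) : R4) 1) = Real.sin (x 1) := by
  by_cases h : i = 0
  · subst h
    have : (x + Pi.single (Fin.succ 0) (2 * π) : R4) 1 = x 1 + 2 * π := by simp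
    rw [this]
    exact ⟨Real.cos_add_two_pi _, Real.sin_add_two_pi _⟩
  · have h1 : (1 : Fin (3 + 1)) ≠ i.succ := by
      intro h2
      apply h
      have : (Fin.succ 0 : Fin (3 + 1)) = i.succ := h2
      exact (Fin.succ_injective _ this).symm
    have : (x + Pi.single i.succ (2 * π) : R4) 1 = x 1 := by simp [h1]
    rw [this]
    exact ⟨rfl, rfl⟩

theorem M1_periodic : IsPeriodic (n := 3) M1 := by
  intro x i
  unfold M1
  rw [add_single_zero, (cos_sin_period x i).1, (cos_sin_period x i).2]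

theorem M2_periodic : IsPeriodic (n := 3) M2 := by
  intro x i
  unfold M2 rho
  rw [add_single_zero, (cos_sin_period x i).1]

/-- The first metric: `dx₀² + dx₁²` plus `100` times the flat metric on the fibre torus with matrix
`(C - S cos x₁, -S sin x₁; -S sin x₁, C + S cos x₁)`. -/
def metric₁ : RiemannianMetric 3 where
  coeff := M1
  smooth := M1_smooth
  posDef := M1_posDef
  periodic := M1_periodic

/-- The second metric: `ρ (dx₀² + dx₁²) + 100 (dx₂² + dx₃²)`, `ρ = C + S cos x₁`. -/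
def metric₂ : RiemannianMetric 3 where
  coeff := M2
  smooth := M2_smooth
  posDef := M2_posDef
  periodic := M2_periodic

end

end Pool.Agent.H65.Steklov
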