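import Pool.Agent.H65.Sector

set_option autoImplicit false

open scoped ContDiff Real
open Set

namespace Pool.Agent.H65.Steklov

noncomputable section

/-- unit vectors -/
def ev (k : Fin (3 + 1)) : R4 := Pi.single k 1

theorem smul_ev (k : Fin (3 + 1)) (s : ℝ) : s • ev k = Pi.single k s := by
  ext i
  unfold ev
  by_cases h : i = k
  · subst h; simp
  · simp [h]

theorem add_ev_ne (k i : Fin (3 + 1)) (h : i ≠ k) (x : R4) (s : ℝ) : (x + s • ev k) i = x i := by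
  rw [smul_ev]; simp [h]

/-- The differential operator, for complex valued functions. -/
def LL (a b c : ℝ → ℝ → ℝ) (F : R4 → ℂ) (x : R4) : ℂ :=
  pd 0 (pd 0 F) x + pd 1 (pd 1 F) x + (1 / 100 : ℂ) *
    ((a (x 0) (x 1) : ℂ) * pd 2 (pd 2 F) x + (b (x 0) (x 1) : ℂ) * pd 2 (pd 3 F) x +
      (b (x 0) (x 1) : ℂ) * pd 3 (pd 2 F) x + (c (x 0) (x 1) : ℂ) * pd 3 (pd 3 F) x)

/-- Solutions of the boundary value problem, for complex valued functions. -/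
structure IsSol (a b c m : ℝ → ℝ → ℝ) (σ : ℝ) (F : R4 → ℂ) : Prop where
  smooth : ContDiff ℝ ∞ F
  per : ∀ (x : R4) (k : Fin (3 + 1)), k ≠ 0 → F (x + Pi.single k (2 * π)) = F x
  pde : ∀ x ∈ slab 3, LL a b c F x = (m (x 0) (x 1) : ℂ) * F x
  bc0 : ∀ x : R4, x 0 = 0 → -pd 0 F x = (σ : ℂ) * F x
  bcπ : ∀ x : R4, x 0 = π → pd 0 F x = (σ : ℂ) * F x

theorem pd_avg (e : R4) (n : ℤ) (F : R4 → ℂ) (hF : ContDiff ℝ ∞ F) (i : Fin (3 + 1)) :
    pd i (avg e n F) = avg e n (pd i F) := by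
  ext x
  unfold pd
  exact fderiv_avg e n F hF x _

theorem pd_pd_avg (e : R4) (n : ℤ) (F : R4 → ℂ) (hF : ContDiff ℝ ∞ F) (i j : Fin (3 + 1)) :
    pd i (pd j (avg e n F)) = avg e n (pd i (pd j F)) := by
  rw [pd_avg e n F hF, pd_avg e n _ (contDiff_pd j F hF)]

theorem LL_avg (a b c : ℝ → ℝ → ℝ) (k : Fin (3 + 1)) (hk0 : k ≠ 0) (hk1 : k ≠ 1) (n : ℤ)
    (F : R4 → ℂ) (hF : ContDiff ℝ ∞ F) (x : R4) :
    LL a b c (avg (ev k) n F) x = avg (ev k) n (LL a b c F) x := by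
  have hc : ∀ i j : Fin (3 + 1), Continuous (pd i (pd j F)) := fun i j =>
    (contDiff_pd i _ (contDiff_pd j F hF)).continuous
  have h1 : avg (ev k) n (LL a b c F) x = avg (ev k) n (fun y =>
      (pd 0 (pd 0 F) y + pd 1 (pd 1 F) y) + (1 / 100 : ℂ) *
    (((a (x 0) (x 1) : ℂ) * pd 2 (pd 2 F) y + (b (x 0) (x 1) : ℂ) * pd 2 (pd 3 F) y) +
      (b (x 0) (x 1) : ℂ) * pd 3 (pd 2 F) y + (c (x 0) (x 1) : ℂ) * pd 3 (pd 3 F) y)) x := by
    apply avg_congr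
    intro s
    unfold LL
    rw [add_ev_ne k 0 (Ne.symm hk0), add_ev_ne k 1 (Ne.symm hk1)]
  rw [h1]
  have h00 := hc 0 0
  have h11 := hc 1 1
  have h22 := hc 2 2
  have h23 := hc 2 3
  have h32 := hc 3 2
  have h33 := hc 3 3
  rw [avg_add _ _ (fun y => pd 0 (pd 0 F) y + pd 1 (pd 1 F) y) _ (by fun_prop) (by fun_prop)]
  rw [avg_add _ _ (pd 0 (pd 0 F)) (pd 1 (pd 1 F)) h00 h11]
  rw [avg_smul_const]
  rw [avg_add _ _ _ _ (by fun_prop) (by fun_prop)]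
  rw [avg_add _ _ _ _ (by fun_prop) (by fun_prop)]
  rw [avg_add _ _ _ _ (by fun_prop) (by fun_prop)]
  rw [avg_smul_const, avg_smul_const, avg_smul_const, avg_smul_const]
  unfold LL
  simp only [pd_pd_avg _ _ F hF]

theorem avg_periodic (k j : Fin (3 + 1)) (n : ℤ) (F : R4 → ℂ)
    (h : ∀ x : R4, F (x + Pi.single j (2 * π)) = F x) (x : R4) :
    avg (ev k) n F (x + Pi.single j (2 * π)) = avg (ev k) n F x := by
  unfold avg
  congr 2
  ext1 s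
  rw [add_right_comm, h]

theorem mem_slab_add (k : Fin (3 + 1)) (hk0 : k ≠ 0) (x : R4) (hx : x ∈ slab 3) (s : ℝ) :
    x + s • ev k ∈ slab 3 := by
  unfold slab at *
  simp only [Set.mem_ofPred_eq] at *
  have h : (x + s • ev k) 0 = x 0 := add_ev_ne k 0 (Ne.symm hk0) x s
  rw [h]; exact hx

theorem IsSol.avg {a b c m : ℝ → ℝ → ℝ} {σ : ℝ} {F : R4 → ℂ} (hF : IsSol a b c m σ F)
    (k : Fin (3 + 1)) (hk0 : k ≠ 0) (hk1 : k ≠ 1) (n : ℤ) :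
    IsSol a b c m σ (Pool.Agent.H65.avg (ev k) n F) where
  smooth := contDiff_avg _ _ _ hF.smooth
  per := fun x j hj => avg_periodic k j n F (fun x => hF.per x j hj) x
  pde := by
    intro x hx
    rw [LL_avg a b c k hk0 hk1 n F hF.smooth]
    have h1 : Pool.Agent.H65.avg (ev k) n (LL a b c F) x =
        Pool.Agent.H65.avg (ev k) n (fun y => (m (x 0) (x 1) : ℂ) * F y) x := by
      apply avg_congr
      intro s
      rw [hF.pde _ (mem_slab_add k hk0 x hx s), add_ev_ne k 0 (Ne.symm hk0),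
        add_ev_ne k 1 (Ne.symm hk1)]
    rw [h1, avg_smul_const]
  bc0 := by
    intro x hx
    rw [pd_avg _ _ F hF.smooth, ← avg_smul_const, ← neg_one_mul, ← avg_smul_const]
    apply avg_congr
    intro s
    rw [neg_one_mul, hF.bc0 _ (by rw [add_ev_ne k 0 (Ne.symm hk0), hx])]
  bcπ := by
    intro x hx
    rw [pd_avg _ _ F hF.smooth, ← avg_smul_const]
    apply avg_congr
    intro s
    rw [hF.bcπ _ (by rw [add_ev_ne k 0 (Ne.symm hk0), hx])]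

/-- projection on the mode `(n₁, n₂)` in the variables `x₂, x₃` -/
def P (n₁ n₂ : ℤ) (F : R4 → ℂ) : R4 → ℂ := avg (ev 2) n₁ (avg (ev 3) n₂ F)

theorem IsSol.P {a b c m : ℝ → ℝ → ℝ} {σ : ℝ} {F : R4 → ℂ} (hF : IsSol a b c m σ F)
    (n₁ n₂ : ℤ) : IsSol a b c m σ (Steklov.P n₁ n₂ F) :=
  (hF.avg 3 (by decide) (by decide) n₂).avg 2 (by decide) (by decide) n₁

theorem IsSol.per_smul {a b c m : ℝ → ℝ → ℝ} {σ : ℝ} {F : R4 → ℂ} (hF : IsSol a b c m σ F)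
    (k : Fin (3 + 1)) (hk : k ≠ 0) (y : R4) : F (y + (2 * π) • ev k) = F y := by
  rw [smul_ev]; exact hF.per y k hk

theorem pd2_P {a b c m : ℝ → ℝ → ℝ} {σ : ℝ} {F : R4 → ℂ} (hF : IsSol a b c m σ F)
    (n₁ n₂ : ℤ) : pd 2 (P n₁ n₂ F) = fun x => Complex.I * n₁ * P n₁ n₂ F x := by
  ext x
  have h := hF.avg 3 (by decide) (by decide) n₂
  exact fderiv_avg_dir (ev 2) n₁ _ h.smooth (h.per_smul 2 (by decide)) x

theorem pd3_P {a b c m : ℝ → ℝ → ℝ} {σ : ℝ} {F : R4 → ℂ} (hF : IsSol a b c m σ F)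
    (n₁ n₂ : ℤ) : pd 3 (P n₁ n₂ F) = fun x => Complex.I * n₂ * P n₁ n₂ F x := by
  ext x
  have h := hF.avg 3 (by decide) (by decide) n₂
  have h2 : pd 3 (avg (ev 3) n₂ F) = fun x => Complex.I * n₂ * avg (ev 3) n₂ F x := by
    ext x
    exact fderiv_avg_dir (ev 3) n₂ F hF.smooth (hF.per_smul 3 (by decide)) x
  unfold P
  rw [pd_avg _ _ _ h.smooth, h2, avg_smul_const]

theorem P_pde {a b c m : ℝ → ℝ → ℝ} {σ : ℝ} {F : R4 → ℂ} (hF : IsSol a b c m σ F)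
    (n₁ n₂ : ℤ) (x : R4) (hx : x ∈ slab 3) :
    pd 0 (pd 0 (P n₁ n₂ F)) x + pd 1 (pd 1 (P n₁ n₂ F)) x =
      (((1 / 100) * (a (x 0) (x 1) * n₁ ^ 2 + 2 * b (x 0) (x 1) * n₁ * n₂ +
        c (x 0) (x 1) * n₂ ^ 2) + m (x 0) (x 1) : ℝ) : ℂ) * P n₁ n₂ F x := by
  have hP := hF.P n₁ n₂
  have h1 := hP.pde x hx
  unfold LL at h1
  have e2 := pd2_P hF n₁ n₂
  have e3 := pd3_P hF n₁ n₂
  have hc : ∀ (z : ℂ) (i : Fin (3 + 1)), pd i (fun x => z * P n₁ n₂ F x) =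
      fun y => z * pd i (P n₁ n₂ F) y := fun z i => pd_const_mul i _ hP.smooth z
  have e22 : pd 2 (pd 2 (P n₁ n₂ F)) x = -(n₁ ^ 2 : ℂ) * P n₁ n₂ F x := by
    rw [e2, hc, e2]; simp only
    linear_combination (n₁ : ℂ) ^ 2 * P n₁ n₂ F x * Complex.I_sq
  have e23 : pd 2 (pd 3 (P n₁ n₂ F)) x = -(n₁ * n₂ : ℂ) * P n₁ n₂ F x := by
    rw [e3, hc, e2]; simp only
    linear_combination (n₁ : ℂ) * n₂ * P n₁ n₂ F x * Complex.I_sq
  have e32 : pd 3 (pd 2 (P n₁ n₂ F)) x = -(n₁ * n₂ : ℂ) * P n₁ n₂ F x := by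
    rw [e2, hc, e3]; simp only
    linear_combination (n₁ : ℂ) * n₂ * P n₁ n₂ F x * Complex.I_sq
  have e33 : pd 3 (pd 3 (P n₁ n₂ F)) x = -(n₂ ^ 2 : ℂ) * P n₁ n₂ F x := by
    rw [e3, hc, e3]; simp only
    linear_combination (n₂ : ℂ) ^ 2 * P n₁ n₂ F x * Complex.I_sq
  rw [e22, e23, e32, e33] at h1
  push_cast
  linear_combination h1

end

end Pool.Agent.H65.Steklov
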