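import Mathlib

set_option autoImplicit false

open scoped ContDiff Real
open MeasureTheory intervalIntegral Set

namespace Pool.Agent.H65

/-- Differentiation under the integral sign for jointly `C¹` integrands. -/
theorem hasFDerivAt_paramInt {E G : Type} [NormedAddCommGroup E] [NormedSpace ℝ E]
    [FiniteDimensional ℝ E] [NormedAddCommGroup G] [NormedSpace ℝ G]
    (H : E × ℝ → G) (hH : ContDiff ℝ 1 H) (a b : ℝ) (x : E) :
    HasFDerivAt (fun y : E => ∫ s in a..b, H (y, s))
      (∫ s in a..b, (fderiv ℝ H (x, s)).comp (ContinuousLinearMap.inl ℝ E ℝ)) x := by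
  have hcont : Continuous (fderiv ℝ H) := hH.continuous_fderiv one_ne_zero
  have hdiff : Differentiable ℝ H := hH.differentiable one_ne_zero
  have hder : ∀ (y : E) (s : ℝ), HasFDerivAt (fun z : E => H (z, s))
      ((fderiv ℝ H (y, s)).comp (ContinuousLinearMap.inl ℝ E ℝ)) y := by
    intro y s
    have h1 : HasFDerivAt (fun z : E => (z, s)) (ContinuousLinearMap.inl ℝ E ℝ) y :=
      hasFDerivAt_prodMk_left y s
    exact ((hdiff (y, s)).hasFDerivAt).comp y h1
  have hcont' : Continuous (fun p : E × ℝ =>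
      (fderiv ℝ H p).comp (ContinuousLinearMap.inl ℝ E ℝ)) :=
    hcont.clm_comp continuous_const
  -- bound on a compact neighbourhood
  have hK : IsCompact (Metric.closedBall x 1 ×ˢ uIcc a b) :=
    (isCompact_closedBall x 1).prod isCompact_uIcc
  obtain ⟨C, hC⟩ := hK.exists_bound_of_continuousOn hcont'.continuousOn
  refine intervalIntegral.hasFDerivAt_integral_of_dominated_of_fderiv_le (𝕜 := ℝ)
    (F' := fun y s => (fderiv ℝ H (y, s)).comp (ContinuousLinearMap.inl ℝ E ℝ))
    (s := Metric.ball x 1) (bound := fun _ => C) (Metric.ball_mem_nhds x one_pos)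
    ?_ ?_ ?_ ?_ ?_ ?_
  · refine Filter.Eventually.of_forall (fun y => ?_)
    have : Continuous (fun s : ℝ => H (y, s)) := hH.continuous.comp (by fun_prop)
    exact this.aestronglyMeasurable
  · have : Continuous (fun s : ℝ => H (x, s)) := hH.continuous.comp (by fun_prop)
    exact this.intervalIntegrable _ _
  · have : Continuous (fun s : ℝ =>
        (fderiv ℝ H (x, s)).comp (ContinuousLinearMap.inl ℝ E ℝ)) :=
      hcont'.comp (by fun_prop : Continuous (fun s : ℝ => (x, s)))
    exact this.aestronglyMeasurable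
  · refine Filter.Eventually.of_forall (fun s hs y hy => ?_)
    exact hC (y, s) ⟨Metric.ball_subset_closedBall hy, uIoc_subset_uIcc hs⟩
  · exact _root_.intervalIntegrable_const
  · exact Filter.Eventually.of_forall (fun s _ y _ => hder y s)

theorem contDiff_nat_paramInt {E : Type} [NormedAddCommGroup E] [NormedSpace ℝ E]
    [FiniteDimensional ℝ E] (a b : ℝ) (n : ℕ) :
    ∀ {G : Type} [NormedAddCommGroup G] [NormedSpace ℝ G]
      (H : E × ℝ → G), ContDiff ℝ ∞ H → ContDiff ℝ n (fun y : E => ∫ s in a..b, H (y, s)) := by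
  induction n with
  | zero =>
    intro G _ _ H hH
    rw [Nat.cast_zero, contDiff_zero]
    refine intervalIntegral.continuous_parametric_intervalIntegral_of_continuous'
      (f := fun y s => H (y, s)) ?_ a b
    exact hH.continuous
  | succ n ih =>
    intro G _ _ H hH
    have h1 : ContDiff ℝ 1 H := hH.of_le (by exact_mod_cast le_top)
    rw [Nat.cast_succ, contDiff_succ_iff_fderiv]
    refine ⟨fun x => (hasFDerivAt_paramInt H h1 a b x).differentiableAt, by simp, ?_⟩
    have : fderiv ℝ (fun y : E => ∫ s in a..b, H (y, s)) = fun x =>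
        ∫ s in a..b, (fun p : E × ℝ =>
          (fderiv ℝ H p).comp (ContinuousLinearMap.inl ℝ E ℝ)) (x, s) := by
      ext1 x
      exact (hasFDerivAt_paramInt H h1 a b x).fderiv
    rw [this]
    refine ih (fun p : E × ℝ =>
          (fderiv ℝ H p).comp (ContinuousLinearMap.inl ℝ E ℝ)) ?_
    have h2 : ContDiff ℝ ∞ (fderiv ℝ H) := (contDiff_infty_iff_fderiv.1 hH).2
    exact h2.clm_comp contDiff_const

theorem contDiff_paramInt {E G : Type} [NormedAddCommGroup E] [NormedSpace ℝ E]
    [FiniteDimensional ℝ E] [NormedAddCommGroup G] [NormedSpace ℝ G]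
    (H : E × ℝ → G) (hH : ContDiff ℝ ∞ H) (a b : ℝ) :
    ContDiff ℝ ∞ (fun y : E => ∫ s in a..b, H (y, s)) :=
  contDiff_infty.2 (fun n => contDiff_nat_paramInt a b n H hH)

theorem fderiv_paramInt_apply {E G : Type} [NormedAddCommGroup E] [NormedSpace ℝ E]
    [FiniteDimensional ℝ E] [NormedAddCommGroup G] [NormedSpace ℝ G] [CompleteSpace G]
    (H : E × ℝ → G) (hH : ContDiff ℝ 1 H) (a b : ℝ) (x v : E) :
    fderiv ℝ (fun y : E => ∫ s in a..b, H (y, s)) x v =
      ∫ s in a..b, fderiv ℝ (fun y : E => H (y, s)) x v := by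
  have hcont : Continuous (fderiv ℝ H) := hH.continuous_fderiv one_ne_zero
  have hdiff : Differentiable ℝ H := hH.differentiable one_ne_zero
  have hcont' : Continuous (fun s : ℝ =>
      (fderiv ℝ H (x, s)).comp (ContinuousLinearMap.inl ℝ E ℝ)) :=
    (hcont.comp (by fun_prop : Continuous (fun s : ℝ => (x, s)))).clm_comp continuous_const
  rw [(hasFDerivAt_paramInt H hH a b x).fderiv,
    ContinuousLinearMap.intervalIntegral_apply (hcont'.intervalIntegrable _ _)]
  congr 1
  ext1 s
  have h1 : HasFDerivAt (fun z : E => (z, s)) (ContinuousLinearMap.inl ℝ E ℝ) x :=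
    hasFDerivAt_prodMk_left x s
  have h2 : HasFDerivAt (fun z : E => H (z, s))
      ((fderiv ℝ H (x, s)).comp (ContinuousLinearMap.inl ℝ E ℝ)) x :=
    ((hdiff (x, s)).hasFDerivAt).comp x h1
  rw [h2.fderiv]

end Pool.Agent.H65
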