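import Pool.Agent.H65.Transfer

set_option autoImplicit false

open scoped ContDiff Real
open Set

namespace Pool.Agent.H65.Steklov

noncomputable section

/-- Sum of shifted modes. -/
def T (I : Finset ℤ) (s : ℤ → ℤ → ℝ) (F : R4 → ℂ) (x : R4) : ℂ :=
  ∑ n₂ ∈ I, ∑ n₁ ∈ I, P n₁ n₂ F (x + s n₁ n₂ • ev 1)

theorem T_isSol {a b c a' b' c' m : ℝ → ℝ → ℝ} {σ : ℝ} {F : R4 → ℂ}
    (hF : IsSol a b c m σ F) (I : Finset ℤ) (s : ℤ → ℤ → ℝ)
    (hq : ∀ (n₁ n₂ : ℤ) (r x : ℝ),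
      a' r x * n₁ ^ 2 + 2 * b' r x * n₁ * n₂ + c' r x * n₂ ^ 2 =
      a r (x + s n₁ n₂) * n₁ ^ 2 + 2 * b r (x + s n₁ n₂) * n₁ * n₂ +
        c r (x + s n₁ n₂) * n₂ ^ 2)
    (hm : ∀ r x y, m r x = m r y) : IsSol a' b' c' m σ (T I s F) := by
  unfold T
  exact IsSol.sum I _ (fun n₂ _ => IsSol.sum I _ (fun n₁ _ =>
    isSol_shift hF n₁ n₂ (s n₁ n₂) (hq n₁ n₂) (fun r x => hm r _ _)))

theorem avg_mul_shift (k : Fin (3 + 1)) (n : ℤ) (G : R4 → ℂ) (v : R4) (z : ℂ)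
    (h : ∀ y, G (y + v) = z * G y) (x : R4) : avg (ev k) n G (x + v) = z * avg (ev k) n G x := by
  rw [← avg_smul_const]
  unfold avg
  congr 2
  ext1 s
  rw [add_right_comm, h]

theorem P_shift2 {a b c m : ℝ → ℝ → ℝ} {σ : ℝ} {F : R4 → ℂ} (hF : IsSol a b c m σ F)
    (n₁ n₂ : ℤ) (x : R4) (t : ℝ) :
    P n₁ n₂ F (x + t • ev 2) = Complex.exp (Complex.I * n₁ * t) * P n₁ n₂ F x :=
  avg_shift (ev 2) n₁ _ ((hF.avg 3 (by decide) (by decide) n₂).per_smul 2 (by decide)) x t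

theorem P_shift3 {a b c m : ℝ → ℝ → ℝ} {σ : ℝ} {F : R4 → ℂ} (hF : IsSol a b c m σ F)
    (n₁ n₂ : ℤ) (x : R4) (t : ℝ) :
    P n₁ n₂ F (x + t • ev 3) = Complex.exp (Complex.I * n₂ * t) * P n₁ n₂ F x :=
  avg_mul_shift 2 n₁ _ _ _ (fun y => avg_shift (ev 3) n₂ F (hF.per_smul 3 (by decide)) y t) x

theorem P_T {a b c m : ℝ → ℝ → ℝ} {σ : ℝ} {F : R4 → ℂ}
    (hF : IsSol a b c m σ F) (I : Finset ℤ) (s : ℤ → ℤ → ℝ) (m₁ m₂ : ℤ) (h1 : m₁ ∈ I)
    (h2 : m₂ ∈ I) (x : R4) :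
    P m₁ m₂ (T I s F) x = P m₁ m₂ F (x + s m₁ m₂ • ev 1) := by
  have hcont : ∀ n₁ n₂ : ℤ, Continuous (fun y => P n₁ n₂ F (y + s n₁ n₂ • ev 1)) := by
    intro n₁ n₂
    exact (hF.P n₁ n₂).smooth.continuous.comp (by fun_prop)
  have e3 : avg (ev 3) m₂ (T I s F) = fun y => ∑ n₁ ∈ I, P n₁ m₂ F (y + s n₁ m₂ • ev 1) := by
    ext y
    unfold T
    rw [avg_sum (ev 3) m₂ I (fun n₂ y => ∑ n₁ ∈ I, P n₁ n₂ F (y + s n₁ n₂ • ev 1))
      (fun n₂ _ => continuous_finsetSum _ (fun n₁ _ => hcont n₁ n₂))]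
    have : ∀ n₂ ∈ I, avg (ev 3) m₂ (fun y => ∑ n₁ ∈ I, P n₁ n₂ F (y + s n₁ n₂ • ev 1)) y =
        if m₂ = n₂ then ∑ n₁ ∈ I, P n₁ n₂ F (y + s n₁ n₂ • ev 1) else 0 := by
      intro n₂ _
      apply avg_of_shift
      intro t
      rw [Finset.mul_sum]
      apply Finset.sum_congr rfl
      intro n₁ _
      rw [add_right_comm, P_shift3 hF]
    rw [Finset.sum_congr rfl this, Finset.sum_ite_eq]
    simp [h2]
  unfold P
  rw [e3, avg_sum (ev 2) m₁ I (fun n₁ y => P n₁ m₂ F (y + s n₁ m₂ • ev 1))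
    (fun n₁ _ => hcont n₁ m₂)]
  have : ∀ n₁ ∈ I, avg (ev 2) m₁ (fun y => P n₁ m₂ F (y + s n₁ m₂ • ev 1)) x =
      if m₁ = n₁ then P n₁ m₂ F (x + s n₁ m₂ • ev 1) else 0 := by
    intro n₁ _
    apply avg_of_shift
    intro t
    rw [add_right_comm, P_shift2 hF]
  rw [Finset.sum_congr rfl this, Finset.sum_ite_eq]
  simp [h1, P]

theorem T_injective {a b c m : ℝ → ℝ → ℝ} {σ : ℝ} {F : R4 → ℂ}
    (hF : IsSol a b c m σ F) (I : Finset ℤ) (s : ℤ → ℤ → ℝ)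
    (hI : ∀ n₁ n₂ : ℤ, (n₁ ∉ I ∨ n₂ ∉ I) → ∀ y ∈ slab 3, P n₁ n₂ F y = 0)
    (h0 : ∀ y ∈ slab 3, T I s F y = 0) : ∀ y ∈ slab 3, F y = 0 := by
  intro y hy
  rw [expand hF I hI y hy]
  apply Finset.sum_eq_zero
  intro n₂ hn₂
  apply Finset.sum_eq_zero
  intro n₁ hn₁
  have h1 : y + (-s n₁ n₂) • ev 1 ∈ slab 3 := mem_slab_add 1 (by decide) y hy _
  have h2 := P_T hF I s n₁ n₂ hn₁ hn₂ (y + (-s n₁ n₂) • ev 1)
  rw [P_eq_zero_of_slab n₁ n₂ _ h0 _ h1] at h2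
  have h3 : y + (-s n₁ n₂) • ev 1 + s n₁ n₂ • ev 1 = y := by
    rw [neg_smul]; abel
  rw [h3] at h2
  exact h2.symm

theorem T_congr_slab (I : Finset ℤ) (s : ℤ → ℤ → ℝ) (F G : R4 → ℂ)
    (h : ∀ y ∈ slab 3, F y = G y) (y : R4) (hy : y ∈ slab 3) : T I s F y = T I s G y := by
  unfold T
  apply Finset.sum_congr rfl
  intro n₂ _
  apply Finset.sum_congr rfl
  intro n₁ _
  exact P_congr_slab n₁ n₂ F G h _ (mem_slab_add 1 (by decide) y hy _)

theorem P_add (n₁ n₂ : ℤ) (F G : R4 → ℂ) (hF : ContDiff ℝ ∞ F) (hG : ContDiff ℝ ∞ G) (x : R4) :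
    P n₁ n₂ (fun y => F y + G y) x = P n₁ n₂ F x + P n₁ n₂ G x := by
  unfold P
  have h1 : avg (ev 3) n₂ (fun y => F y + G y) =
      fun y => avg (ev 3) n₂ F y + avg (ev 3) n₂ G y := by
    ext y
    exact avg_add _ _ F G hF.continuous hG.continuous y
  rw [h1, avg_add _ _ _ _ (contDiff_avg _ _ F hF).continuous (contDiff_avg _ _ G hG).continuous]

theorem P_const_mul (n₁ n₂ : ℤ) (F : R4 → ℂ) (z : ℂ) (x : R4) :
    P n₁ n₂ (fun y => z * F y) x = z * P n₁ n₂ F x := by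
  unfold P
  have h1 : avg (ev 3) n₂ (fun y => z * F y) = fun y => z * avg (ev 3) n₂ F y := by
    ext y
    exact avg_smul_const _ _ F y z
  rw [h1, avg_smul_const]

theorem T_add (I : Finset ℤ) (s : ℤ → ℤ → ℝ) (F G : R4 → ℂ) (hF : ContDiff ℝ ∞ F)
    (hG : ContDiff ℝ ∞ G) (x : R4) :
    T I s (fun y => F y + G y) x = T I s F x + T I s G x := by
  unfold T
  simp only [P_add _ _ F G hF hG, Finset.sum_add_distrib]

theorem T_const_mul (I : Finset ℤ) (s : ℤ → ℤ → ℝ) (F : R4 → ℂ) (z : ℂ) (x : R4) :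
    T I s (fun y => z * F y) x = z * T I s F x := by
  unfold T
  simp only [P_const_mul, Finset.mul_sum]

theorem P_conj (n₁ n₂ : ℤ) (F : R4 → ℂ) (x : R4) :
    (starRingEnd ℂ) (P n₁ n₂ F x) = P (-n₁) (-n₂) (fun y => (starRingEnd ℂ) (F y)) x := by
  unfold P
  rw [avg_conj]
  congr 1
  ext y
  rw [avg_conj]

theorem sum_neg_Icc (N : ℤ) (f : ℤ → ℂ) :
    ∑ n ∈ Finset.Icc (-N) N, f (-n) = ∑ n ∈ Finset.Icc (-N) N, f n := by
  apply Finset.sum_nbij' (fun n => -n) (fun n => -n)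
  · intro n hn; simp only [Finset.mem_Icc] at *; constructor <;> linarith [hn.1, hn.2]
  · intro n hn; simp only [Finset.mem_Icc] at *; constructor <;> linarith [hn.1, hn.2]
  · intro n _; simp
  · intro n _; simp
  · intro n _; simp

theorem T_conj (N : ℤ) (s : ℤ → ℤ → ℝ) (hs : ∀ n₁ n₂, s (-n₁) (-n₂) = s n₁ n₂) (F : R4 → ℂ)
    (hF : ∀ y, (starRingEnd ℂ) (F y) = F y) (x : R4) :
    (starRingEnd ℂ) (T (Finset.Icc (-N) N) s F x) = T (Finset.Icc (-N) N) s F x := by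
  unfold T
  rw [map_sum]
  rw [← sum_neg_Icc N (fun n₂ => ∑ n₁ ∈ Finset.Icc (-N) N, P n₁ n₂ F (x + s n₁ n₂ • ev 1))]
  apply Finset.sum_congr rfl
  intro n₂ _
  rw [map_sum]
  rw [← sum_neg_Icc N (fun n₁ => P n₁ (-n₂) F (x + s n₁ (-n₂) • ev 1))]
  apply Finset.sum_congr rfl
  intro n₁ _
  rw [P_conj, hs]
  congr 1
  ext y
  exact hF y

/-- The real vector space of real solutions, as functions on the slab. -/
def V (a b c m : ℝ → ℝ → ℝ) (σ : ℝ) : Submodule ℝ (slab 3 → ℝ) where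
  carrier := {f | ∃ F : R4 → ℝ, IsSol a b c m σ (fun x => (F x : ℂ)) ∧ ∀ x : slab 3, F x = f x}
  add_mem' := by
    rintro f g ⟨F, hF, hFf⟩ ⟨G, hG, hGg⟩
    refine ⟨fun x => F x + G x, ?_, fun x => by simp only [hFf, hGg, Pi.add_apply]⟩
    have := hF.add hG
    simpa using this
  zero_mem' := ⟨fun _ => 0, by simpa using IsSol.zero a b c m σ, fun x => rfl⟩
  smul_mem' := by
    rintro z f ⟨F, hF, hFf⟩
    refine ⟨fun x => z * F x, ?_, fun x => by simp only [hFf, Pi.smul_apply, smul_eq_mul]⟩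
    have := hF.const_mul (z : ℂ)
    simpa using this

theorem contDiff_of_isSol {a b c m : ℝ → ℝ → ℝ} {σ : ℝ} {F : R4 → ℝ}
    (hF : IsSol a b c m σ (fun x => (F x : ℂ))) : ContDiff ℝ ∞ (fun x => (F x : ℂ)) := hF.smooth

theorem rank_V_le {a b c a' b' c' m : ℝ → ℝ → ℝ} {σ : ℝ} (N : ℤ) (s : ℤ → ℤ → ℝ)
    (hs : ∀ n₁ n₂, s (-n₁) (-n₂) = s n₁ n₂)
    (hq : ∀ (n₁ n₂ : ℤ) (r x : ℝ),
      a' r x * n₁ ^ 2 + 2 * b' r x * n₁ * n₂ + c' r x * n₂ ^ 2 =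
      a r (x + s n₁ n₂) * n₁ ^ 2 + 2 * b r (x + s n₁ n₂) * n₁ * n₂ +
        c r (x + s n₁ n₂) * n₂ ^ 2)
    (hm : ∀ r x y, m r x = m r y)
    (hI : ∀ F : R4 → ℂ, IsSol a b c m σ F → ∀ n₁ n₂ : ℤ,
      (n₁ ∉ Finset.Icc (-N) N ∨ n₂ ∉ Finset.Icc (-N) N) → ∀ y ∈ slab 3, P n₁ n₂ F y = 0) :
    Module.rank ℝ (V a b c m σ) ≤ Module.rank ℝ (V a' b' c' m σ) := by
  classical
  set I := Finset.Icc (-N) N with hIdef
  -- chosen extensions
  let E : V a b c m σ → R4 → ℝ := fun f => f.2.choose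
  have hE : ∀ f : V a b c m σ, IsSol a b c m σ (fun x => (E f x : ℂ)) := fun f =>
    f.2.choose_spec.1
  have hEf : ∀ (f : V a b c m σ) (x : slab 3), E f x = f.1 x := fun f => f.2.choose_spec.2
  have hreal : ∀ (f : V a b c m σ) (x : R4),
      ((T I s (fun x => (E f x : ℂ)) x).re : ℂ) = T I s (fun x => (E f x : ℂ)) x := by
    intro f x
    have h1 := T_conj N s hs (fun x => (E f x : ℂ)) (fun y => Complex.conj_ofReal _) x
    exact Complex.conj_eq_iff_re.1 h1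
  have hadd : ∀ (f g : V a b c m σ) (x : R4), x ∈ slab 3 →
      T I s (fun x => (E (f + g) x : ℂ)) x = T I s (fun x => (E f x : ℂ)) x +
        T I s (fun x => (E g x : ℂ)) x := by
    intro f g x hx
    rw [← T_add I s _ _ (hE f).smooth (hE g).smooth]
    apply T_congr_slab _ _ _ _ _ x hx
    intro y hy
    have h1 := hEf (f + g) ⟨y, hy⟩
    have h2 := hEf f ⟨y, hy⟩
    have h3 := hEf g ⟨y, hy⟩
    simp only at h1 h2 h3
    rw [h1, h2, h3]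
    simp
  have hsmul : ∀ (z : ℝ) (f : V a b c m σ) (x : R4), x ∈ slab 3 →
      T I s (fun x => (E (z • f) x : ℂ)) x = (z : ℂ) * T I s (fun x => (E f x : ℂ)) x := by
    intro z f x hx
    rw [← T_const_mul I s]
    apply T_congr_slab _ _ _ _ _ x hx
    intro y hy
    have h1 := hEf (z • f) ⟨y, hy⟩
    have h2 := hEf f ⟨y, hy⟩
    simp only at h1 h2
    rw [h1, h2]
    simp
  let Φ : V a b c m σ →ₗ[ℝ] V a' b' c' m σ :=
    { toFun := fun f => ⟨fun x => (T I s (fun x => (E f x : ℂ)) x).re,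
        ⟨fun x => (T I s (fun x => (E f x : ℂ)) x).re, by
          have h1 := T_isSol (hE f) I s hq hm
          have h2 : (fun x => ((T I s (fun x => (E f x : ℂ)) x).re : ℂ)) =
              T I s (fun x => (E f x : ℂ)) := by ext1 x; exact hreal f x
          rw [h2]; exact h1, fun x => rfl⟩⟩
      map_add' := by
        intro f g
        apply Subtype.ext
        ext x
        simp only [Submodule.coe_add, Pi.add_apply]
        rw [hadd f g x x.2, Complex.add_re]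
      map_smul' := by
        intro z f
        apply Subtype.ext
        ext x
        simp only [Submodule.coe_smul, Pi.smul_apply, RingHom.id_apply, smul_eq_mul]
        rw [hsmul z f x x.2, Complex.re_ofReal_mul] }
  have hinj : Function.Injective Φ := by
    rw [injective_iff_map_eq_zero]
    intro f hf
    have h0 : ∀ y ∈ slab 3, T I s (fun x => (E f x : ℂ)) y = 0 := by
      intro y hy
      rw [← hreal f y]
      have h1 : (Φ f).1 ⟨y, hy⟩ = 0 := by rw [hf]; rfl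
      have h2 : (Φ f).1 ⟨y, hy⟩ = (T I s (fun x => (E f x : ℂ)) y).re := rfl
      rw [← h2, h1]; simp
    have h3 := T_injective (hE f) I s (hI _ (hE f)) h0
    apply Subtype.ext
    ext x
    have h4 := h3 x x.2
    have h5 := hEf f x
    have h6 : E f x = 0 := by exact_mod_cast h4
    rw [← h5, h6]; rfl
  exact LinearMap.rank_le_of_injective Φ hinj

end

end Pool.Agent.H65.Steklov
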