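import Mathlib

set_option autoImplicit false

/-!
# Riemannian metrics on `[0, π] × (ℝ/2πℤ)ⁿ`, Steklov and Neumann eigenfunctions

We work on the compact connected manifold with boundary `Ω = [0, π] × (ℝ/2πℤ)ⁿ`, of dimension
`n + 1`, in its global coordinates `x₀ ∈ [0, π]`, `x₁, …, xₙ ∈ ℝ/2πℤ`. Functions on `Ω` are functions
of `(x₀, …, xₙ)` with `0 ≤ x₀ ≤ π` which are `2π`-periodic in `x₁, …, xₙ`.
-/

open scoped ContDiff Real

namespace Pool.Agent.H65.Steklov

noncomputable section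

/-- The closed slab `[0, π] × ℝⁿ ⊆ ℝⁿ⁺¹`, the universal cover of `Ω = [0, π] × (ℝ/2πℤ)ⁿ`. -/
def slab (n : ℕ) : Set (Fin (n + 1) → ℝ) := {x | 0 ≤ x 0 ∧ x 0 ≤ π}

/-- Periodicity with period `2π` in each of the last `n` variables `x₁, …, xₙ`. -/
def IsPeriodic {n : ℕ} {β : Type} (f : (Fin (n + 1) → ℝ) → β) : Prop :=
  ∀ (x : Fin (n + 1) → ℝ) (i : Fin n), f (x + Pi.single i.succ (2 * π)) = f x

/-- A smooth Riemannian metric on `ℝ × (ℝ/2πℤ)ⁿ`, hence by restriction on the compact manifold with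
boundary `Ω = [0, π] × (ℝ/2πℤ)ⁿ`: `coeff x` is the matrix `(g_{ij}(x))` in the global coordinates. -/
structure RiemannianMetric (n : ℕ) where
  /-- The matrix of the metric in the global coordinates. -/
  coeff : (Fin (n + 1) → ℝ) → Matrix (Fin (n + 1)) (Fin (n + 1)) ℝ
  /-- The coefficients are smooth functions. -/
  smooth : ∀ i j, ContDiff ℝ ∞ (fun x => coeff x i j)
  /-- The matrix is symmetric and positive definite at each point. -/
  posDef : ∀ x, (coeff x).PosDef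
  /-- The coefficients are periodic in the last `n` variables. -/
  periodic : IsPeriodic coeff

/-- The `i`-th partial derivative. -/
def pd {n : ℕ} {G : Type} [NormedAddCommGroup G] [NormedSpace ℝ G] (i : Fin (n + 1))
    (F : (Fin (n + 1) → ℝ) → G) (x : Fin (n + 1) → ℝ) : G :=
  fderiv ℝ F x (Pi.single i 1)

/-- The (positive) Laplace–Beltrami operator
`Δ_g F = -(det g)^{-1/2} ∑_i ∂_i ((det g)^{1/2} ∑_j g^{ij} ∂_j F)`. -/
def laplacian {n : ℕ} (g : RiemannianMetric n) (F : (Fin (n + 1) → ℝ) → ℝ)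
    (x : Fin (n + 1) → ℝ) : ℝ :=
  -((√(g.coeff x).det)⁻¹ *
    ∑ i, pd i (fun y => √(g.coeff y).det * ∑ j, (g.coeff y)⁻¹ i j * pd j F y) x)

/-- `ν` is the outward unit normal vector of `Ω` for the metric `g` at the boundary point `x`
(a point with `x₀ = 0` or `x₀ = π`): it has length one, is orthogonal to the boundary (whose tangent
vectors are the `w` with `w₀ = 0`), and points out of `Ω`. -/
def IsOutwardUnitNormal {n : ℕ} (g : RiemannianMetric n) (x ν : Fin (n + 1) → ℝ) : Prop :=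
  ν ⬝ᵥ (g.coeff x).mulVec ν = 1 ∧
  (∀ w : Fin (n + 1) → ℝ, w 0 = 0 → w ⬝ᵥ (g.coeff x).mulVec ν = 0) ∧
  ((x 0 = 0 ∧ ν 0 < 0) ∨ (x 0 = π ∧ 0 < ν 0))

/-- `f : Ω → ℝ` (a function on the slab) solves
`Δ_g f = lam f` in `Ω` and `∂_ν f = σ f` on `∂Ω`. Being smooth up to the boundary means, as usual, being the
restriction of a smooth function `F` on `ℝ × (ℝ/2πℤ)ⁿ`; all derivatives of `F` at points of `Ω`
only depend on `f`. -/
def IsEigenfunction {n : ℕ} (g : RiemannianMetric n) (lam σ : ℝ) (f : slab n → ℝ) : Prop :=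
  ∃ F : (Fin (n + 1) → ℝ) → ℝ, ContDiff ℝ ∞ F ∧ IsPeriodic F ∧ (∀ x : slab n, F x = f x) ∧
    (∀ x ∈ slab n, laplacian g F x = lam * F x) ∧
    (∀ x ν : Fin (n + 1) → ℝ, IsOutwardUnitNormal g x ν → fderiv ℝ F x ν = σ * F x)

/-- The multiplicity of `σ` as a Steklov eigenvalue of `(Ω, g)`: the dimension of the space of all
smooth `f : Ω → ℝ` with `Δ_g f = 0` in `Ω` and `∂_ν f = σ f` on `∂Ω`. -/
def steklovMultiplicity {n : ℕ} (g : RiemannianMetric n) (σ : ℝ) : Cardinal :=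
  Module.rank ℝ (Submodule.span ℝ {f : slab n → ℝ | IsEigenfunction g 0 σ f})

/-- The multiplicity of `lam` as a Neumann eigenvalue of `(Ω, g)`: the dimension of the space of all
smooth `f : Ω → ℝ` with `Δ_g f = lam f` in `Ω` and `∂_ν f = 0` on `∂Ω`. -/
def neumannMultiplicity {n : ℕ} (g : RiemannianMetric n) (lam : ℝ) : Cardinal :=
  Module.rank ℝ (Submodule.span ℝ {f : slab n → ℝ | IsEigenfunction g lam 0 f})

/-- The Steklov spectra of `(Ω, g₁)` and `(Ω, g₂)` coincide, with multiplicities. -/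
def SteklovIsospectral {n : ℕ} (g₁ g₂ : RiemannianMetric n) : Prop :=
  ∀ σ : ℝ, steklovMultiplicity g₁ σ = steklovMultiplicity g₂ σ

/-- The Neumann spectra of `(Ω, g₁)` and `(Ω, g₂)` coincide, with multiplicities. -/
def NeumannIsospectral {n : ℕ} (g₁ g₂ : RiemannianMetric n) : Prop :=
  ∀ lam : ℝ, neumannMultiplicity g₁ lam = neumannMultiplicity g₂ lam

end

end Pool.Agent.H65.Steklov
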