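import Pool.Agent.H65.Avg
import Pool.Agent.H65.MaxPrinciple
import Pool.Agent.H65.SteklovDefs

set_option autoImplicit false
set_option linter.unusedSectionVars false

open scoped ContDiff Real
open Set

namespace Pool.Agent.H65.Steklov

noncomputable section

abbrev R4 := Fin (3 + 1) → ℝ

/-- the point of ℝ⁴ with first two coordinates `r, x` and the others as in `y` -/
def pt (y : R4) (r x : ℝ) : R4 := Function.update (Function.update y 0 r) 1 x

theorem pt_zero (y : R4) (r x : ℝ) : pt y r x 0 = r := by simp [pt]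
theorem pt_one (y : R4) (r x : ℝ) : pt y r x 1 = x := by simp [pt]
theorem pt_self (y : R4) : pt y (y 0) (y 1) = y := by simp [pt]

theorem hasDerivAt_pt_x (y : R4) (r x : ℝ) :
    HasDerivAt (fun t => pt y r t) (Pi.single 1 1) x :=
  hasDerivAt_update _ _ _

theorem hasDerivAt_pt_r (y : R4) (r x : ℝ) :
    HasDerivAt (fun t => pt y t x) (Pi.single 0 1) r := by
  have h : (fun t => pt y t x) = Function.update (Function.update y 1 x) 0 := by
    ext1 t
    unfold pt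
    rw [Function.update_comm (by decide)]
  rw [h]
  exact hasDerivAt_update _ _ _

theorem continuous_pt (y : R4) : Continuous (fun p : ℝ × ℝ => pt y p.1 p.2) := by
  unfold pt
  fun_prop

theorem contDiff_pd {n : ℕ} {G : Type} [NormedAddCommGroup G] [NormedSpace ℝ G] (i : Fin (n + 1))
    (F : (Fin (n + 1) → ℝ) → G) (hF : ContDiff ℝ ∞ F) : ContDiff ℝ ∞ (pd i F) := by
  unfold pd
  exact ((contDiff_infty_iff_fderiv.1 hF).2).clm_apply contDiff_const

theorem hasDerivAt_comp_pt_r {G : Type} [NormedAddCommGroup G] [NormedSpace ℝ G]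
    (F : R4 → G) (hF : ContDiff ℝ ∞ F) (y : R4) (r x : ℝ) :
    HasDerivAt (fun t => F (pt y t x)) (pd 0 F (pt y r x)) r := by
  have h1 : HasFDerivAt F (fderiv ℝ F (pt y r x)) (pt y r x) :=
    ((hF.differentiable (by simp)) _).hasFDerivAt
  exact h1.comp_hasDerivAt r (hasDerivAt_pt_r y r x)

theorem hasDerivAt_comp_pt_x {G : Type} [NormedAddCommGroup G] [NormedSpace ℝ G]
    (F : R4 → G) (hF : ContDiff ℝ ∞ F) (y : R4) (r x : ℝ) :
    HasDerivAt (fun t => F (pt y r t)) (pd 1 F (pt y r x)) x := by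
  have h1 : HasFDerivAt F (fderiv ℝ F (pt y r x)) (pt y r x) :=
    ((hF.differentiable (by simp)) _).hasFDerivAt
  exact h1.comp_hasDerivAt x (hasDerivAt_pt_x y r x)

theorem pt_add_period (y : R4) (r x : ℝ) :
    pt y r (x + 2 * π) = pt y r x + Pi.single 1 (2 * π) := by
  ext i
  unfold pt
  by_cases h1 : i = 1
  · subst h1; simp
  · simp [h1]

/-- Real version of the uniqueness principle on ℝ⁴. -/
theorem real_eq_zero (G : R4 → ℝ) (hG : ContDiff ℝ ∞ G)
    (hper : ∀ y, G (y + Pi.single 1 (2 * π)) = G y) (y : R4)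
    (q h hr hrr hx hxx : ℝ → ℝ → ℝ) (σ : ℝ)
    (pde : ∀ r ∈ Icc 0 π, ∀ x, pd 0 (pd 0 G) (pt y r x) + pd 1 (pd 1 G) (pt y r x) =
      q r x * G (pt y r x))
    (bc0 : ∀ x, -pd 0 G (pt y 0 x) = σ * G (pt y 0 x))
    (bcπ : ∀ x, pd 0 G (pt y π x) = σ * G (pt y π x))
    (ch : Continuous fun p : ℝ × ℝ => h p.1 p.2)
    (perh : ∀ r x, h r (x + 2 * π) = h r x)
    (dhr : ∀ r x, HasDerivAt (fun t => h t x) (hr r x) r)
    (dhrr : ∀ r x, HasDerivAt (fun t => hr t x) (hrr r x) r)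
    (dhx : ∀ r x, HasDerivAt (fun t => h r t) (hx r x) x)
    (dhxx : ∀ r x, HasDerivAt (fun t => hx r t) (hxx r x) x)
    (sup : ∀ r ∈ Icc 0 π, ∀ x, hrr r x + hxx r x < q r x * h r x)
    (hpos : ∀ r ∈ Icc 0 π, ∀ x, 0 < h r x)
    (sbc0 : ∀ x, σ * h 0 x < -hr 0 x) (sbcπ : ∀ x, σ * h π x < hr π x) :
    ∀ r ∈ Icc 0 π, ∀ x, G (pt y r x) = 0 := by
  refine eq_zero_of_supersolution (fun r x => G (pt y r x)) (fun r x => pd 0 G (pt y r x))
    (fun r x => pd 0 (pd 0 G) (pt y r x)) (fun r x => pd 1 G (pt y r x))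
    (fun r x => pd 1 (pd 1 G) (pt y r x)) h hr hrr hx hxx q σ
    (hG.continuous.comp (continuous_pt y)) ch ?_ perh
    (fun r x => hasDerivAt_comp_pt_r G hG y r x)
    (fun r x => hasDerivAt_comp_pt_r _ (contDiff_pd 0 G hG) y r x)
    (fun r x => hasDerivAt_comp_pt_x G hG y r x)
    (fun r x => hasDerivAt_comp_pt_x _ (contDiff_pd 1 G hG) y r x)
    dhr dhrr dhx dhxx pde sup hpos bc0 bcπ sbc0 sbcπ
  intro r x
  rw [pt_add_period, hper]

theorem pd_re (i : Fin (3 + 1)) (F : R4 → ℂ) (hF : ContDiff ℝ ∞ F) :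
    pd i (fun y => (F y).re) = fun y => (pd i F y).re := by
  ext y
  unfold pd
  have h1 : HasFDerivAt F (fderiv ℝ F y) y := ((hF.differentiable (by simp)) _).hasFDerivAt
  have h2 : HasFDerivAt (fun y => (F y).re) (Complex.reCLM.comp (fderiv ℝ F y)) y :=
    Complex.reCLM.hasFDerivAt.comp y h1
  rw [h2.fderiv]
  rfl

theorem contDiff_re (F : R4 → ℂ) (hF : ContDiff ℝ ∞ F) : ContDiff ℝ ∞ (fun y => (F y).re) :=
  Complex.reCLM.contDiff.comp hF

theorem pd_const_mul (i : Fin (3 + 1)) (F : R4 → ℂ) (hF : ContDiff ℝ ∞ F) (z : ℂ) :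
    pd i (fun y => z * F y) = fun y => z * pd i F y := by
  ext y
  unfold pd
  rw [fderiv_const_mul ((hF.differentiable (by simp)) y)]
  rfl

/-- Complex version of the uniqueness principle on ℝ⁴. -/
theorem complex_eq_zero (G : R4 → ℂ) (hG : ContDiff ℝ ∞ G)
    (hper : ∀ y, G (y + Pi.single 1 (2 * π)) = G y) (y : R4)
    (q h hr hrr hx hxx : ℝ → ℝ → ℝ) (σ : ℝ)
    (pde : ∀ r ∈ Icc 0 π, ∀ x, pd 0 (pd 0 G) (pt y r x) + pd 1 (pd 1 G) (pt y r x) =
      (q r x : ℂ) * G (pt y r x))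
    (bc0 : ∀ x, -pd 0 G (pt y 0 x) = (σ : ℂ) * G (pt y 0 x))
    (bcπ : ∀ x, pd 0 G (pt y π x) = (σ : ℂ) * G (pt y π x))
    (ch : Continuous fun p : ℝ × ℝ => h p.1 p.2)
    (perh : ∀ r x, h r (x + 2 * π) = h r x)
    (dhr : ∀ r x, HasDerivAt (fun t => h t x) (hr r x) r)
    (dhrr : ∀ r x, HasDerivAt (fun t => hr t x) (hrr r x) r)
    (dhx : ∀ r x, HasDerivAt (fun t => h r t) (hx r x) x)
    (dhxx : ∀ r x, HasDerivAt (fun t => hx r t) (hxx r x) x)
    (sup : ∀ r ∈ Icc 0 π, ∀ x, hrr r x + hxx r x < q r x * h r x)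
    (hpos : ∀ r ∈ Icc 0 π, ∀ x, 0 < h r x)
    (sbc0 : ∀ x, σ * h 0 x < -hr 0 x) (sbcπ : ∀ x, σ * h π x < hr π x) :
    ∀ r ∈ Icc 0 π, ∀ x, G (pt y r x) = 0 := by
  have key : ∀ z : ℂ, ∀ r ∈ Icc 0 π, ∀ x, (z * G (pt y r x)).re = 0 := by
    intro z
    have hzG : ContDiff ℝ ∞ (fun y => z * G y) := contDiff_const.mul hG
    have e1 : ∀ i, pd i (fun y => (z * G y).re) = fun y => (z * pd i G y).re := by
      intro i
      rw [pd_re i _ hzG, pd_const_mul i G hG z]
    have e2 : ∀ i, pd i (pd i (fun y => (z * G y).re)) = fun y => (z * pd i (pd i G) y).re := by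
      intro i
      rw [e1 i]
      have hz2 : ContDiff ℝ ∞ (fun y => z * pd i G y) := contDiff_const.mul (contDiff_pd i G hG)
      rw [pd_re i _ hz2, pd_const_mul i _ (contDiff_pd i G hG) z]
    refine real_eq_zero (fun y => (z * G y).re) (contDiff_re _ hzG) ?_ y q h hr hrr hx hxx σ
      ?_ ?_ ?_ ch perh dhr dhrr dhx dhxx sup hpos sbc0 sbcπ
    · intro w; simp only [hper]
    · intro r hrr x
      rw [e2 0, e2 1]
      have h1 := pde r hrr x
      have h2 : (z * pd 0 (pd 0 G) (pt y r x)).re + (z * pd 1 (pd 1 G) (pt y r x)).re =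
          (z * (pd 0 (pd 0 G) (pt y r x) + pd 1 (pd 1 G) (pt y r x))).re := by
        rw [mul_add, Complex.add_re]
      simp only
      rw [h2, h1]
      have h3 : z * ((q r x : ℂ) * G (pt y r x)) = (q r x : ℂ) * (z * G (pt y r x)) := by ring
      rw [h3, Complex.re_ofReal_mul]
    · intro x
      rw [e1 0]
      have h1 := bc0 x
      have h2 : -(z * pd 0 G (pt y 0 x)).re = (z * (-pd 0 G (pt y 0 x))).re := by
        rw [mul_neg, Complex.neg_re]
      simp only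
      rw [h2, h1]
      have h3 : z * ((σ : ℂ) * G (pt y 0 x)) = (σ : ℂ) * (z * G (pt y 0 x)) := by ring
      rw [h3, Complex.re_ofReal_mul]
    · intro x
      rw [e1 0]
      have h1 := bcπ x
      simp only
      rw [h1]
      have h3 : z * ((σ : ℂ) * G (pt y π x)) = (σ : ℂ) * (z * G (pt y π x)) := by ring
      rw [h3, Complex.re_ofReal_mul]
  intro r hr' x
  have h1 := key 1 r hr' x
  have h2 := key (-Complex.I) r hr' x
  rw [one_mul] at h1
  apply Complex.ext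
  · simpa using h1
  · simpa using h2

end

end Pool.Agent.H65.Steklov
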