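import Pool.Agent.H65.Corr

set_option autoImplicit false

open scoped ContDiff Real
open Set

namespace Pool.Agent.H65.Steklov

noncomputable section

/-! ### The quadratic forms -/

/-- twice the argument of `(n₁, n₂)` -/
def θ (n₁ n₂ : ℤ) : ℝ := Complex.arg (((n₁ : ℂ) + n₂ * Complex.I) ^ 2)

theorem θ_neg (n₁ n₂ : ℤ) : θ (-n₁) (-n₂) = θ n₁ n₂ := by
  unfold θ
  congr 1
  push_cast
  ring

theorem norm_sq_z (n₁ n₂ : ℤ) : ‖((n₁ : ℂ) + n₂ * Complex.I) ^ 2‖ = (n₁ : ℝ) ^ 2 + n₂ ^ 2 := by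
  rw [norm_pow, ← Complex.normSq_eq_norm_sq, Complex.normSq_apply]
  simp
  ring

theorem cos_θ (n₁ n₂ : ℤ) : ((n₁ : ℝ) ^ 2 + n₂ ^ 2) * Real.cos (θ n₁ n₂) = n₁ ^ 2 - n₂ ^ 2 := by
  have h := Complex.norm_mul_cos_arg (((n₁ : ℂ) + n₂ * Complex.I) ^ 2)
  rw [norm_sq_z] at h
  unfold θ
  rw [h]
  simp [sq]

theorem sin_θ (n₁ n₂ : ℤ) : ((n₁ : ℝ) ^ 2 + n₂ ^ 2) * Real.sin (θ n₁ n₂) = 2 * n₁ * n₂ := by
  have h := Complex.norm_mul_sin_arg (((n₁ : ℂ) + n₂ * Complex.I) ^ 2)
  rw [norm_sq_z] at h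
  unfold θ
  rw [h]
  simp [sq]
  ring

theorem form₁_eq (n₁ n₂ : ℤ) (r x : ℝ) :
    a₁ r x * n₁ ^ 2 + 2 * b₁ r x * n₁ * n₂ + c₁ r x * n₂ ^ 2 =
      ((n₁ : ℝ) ^ 2 + n₂ ^ 2) * rho r (x - θ n₁ n₂) := by
  have h1 := cos_θ n₁ n₂
  have h2 := sin_θ n₁ n₂
  unfold a₁ b₁ c₁ rho
  rw [Real.cos_sub]
  linear_combination -(S r * Real.cos x) * h1 - S r * Real.sin x * h2

theorem form₂_eq (n₁ n₂ : ℤ) (r x : ℝ) :
    rho r x * n₁ ^ 2 + 2 * zer r x * n₁ * n₂ + rho r x * n₂ ^ 2 =
      ((n₁ : ℝ) ^ 2 + n₂ ^ 2) * rho r x := by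
  unfold zer
  ring

theorem rho_ge (r x : ℝ) : 2 / 5 ≤ rho r x := by
  unfold rho
  have h1 := C_sub_S r
  have h2 := Real.neg_one_le_cos x
  have h3 := S_nonneg r
  nlinarith

theorem large_form (α : ℝ) (hα : 1 ≤ α) (N : ℤ) (hN : 16 * α ≤ N) (n₁ n₂ : ℤ)
    (h : n₁ ∉ Finset.Icc (-N) N ∨ n₂ ∉ Finset.Icc (-N) N) (t : ℝ) (ht : 2 / 5 ≤ t) :
    100 * α ^ 2 < ((n₁ : ℝ) ^ 2 + n₂ ^ 2) * t := by
  have key : ∀ n : ℤ, n ∉ Finset.Icc (-N) N → (16 * α) ^ 2 ≤ (n : ℝ) ^ 2 := by
    intro n hn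
    have h1 : (N : ℝ) ≤ |(n : ℝ)| := by
      rw [Finset.mem_Icc, not_and_or, not_le, not_le] at hn
      rcases hn with hn | hn
      · have : (n : ℝ) < -N := by exact_mod_cast hn
        have h3 := neg_abs_le (n : ℝ)
        linarith [neg_le_abs (n : ℝ)]
      · have : (N : ℝ) < n := by exact_mod_cast hn
        linarith [le_abs_self (n : ℝ)]
    rw [← sq_abs (n : ℝ)]
    apply pow_le_pow_left₀ (by linarith) (by linarith)
  have h2 : (16 * α) ^ 2 ≤ (n₁ : ℝ) ^ 2 + n₂ ^ 2 := by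
    rcases h with h | h
    · have := key n₁ h
      nlinarith [sq_nonneg (n₂ : ℝ)]
    · have := key n₂ h
      nlinarith [sq_nonneg (n₁ : ℝ)]
  have h3 : (n₁ : ℝ) ^ 2 + n₂ ^ 2 ≤ ((n₁ : ℝ) ^ 2 + n₂ ^ 2) * (5 / 2 * t) := by
    apply le_mul_of_one_le_right (by positivity)
    linarith
  nlinarith

/-! ### Steklov isospectrality -/

theorem steklov_isospectral : SteklovIsospectral metric₁ metric₂ := by
  intro σ
  unfold steklovMultiplicity
  rw [isEigen₁, isEigen₂, Submodule.span_eq, Submodule.span_eq]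
  have m1 : (fun _ _ : ℝ => -(0 : ℝ)) = fun _ _ => (0 : ℝ) := by ext; simp
  have m2 : (fun r x : ℝ => -(0 * rho r x)) = fun _ _ => (0 : ℝ) := by ext; simp
  rw [m1, m2]
  set α := 2 * |σ| + 1 with hα
  have hα1 : 1 ≤ α := by have := abs_nonneg σ; linarith
  obtain ⟨N, hN⟩ : ∃ N : ℤ, 16 * α ≤ N := ⟨⌈16 * α⌉, Int.le_ceil _⟩
  apply le_antisymm
  · refine rank_V_le N (fun n₁ n₂ => θ n₁ n₂) (fun n₁ n₂ => θ_neg n₁ n₂) ?_ (fun _ _ _ => rfl) ?_
    · intro n₁ n₂ r x
      rw [form₂_eq, form₁_eq]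
      congr 2
      ring
    · intro F hF n₁ n₂ hn y hy
      apply P_eq_zero hF hα n₁ n₂ _ y hy
      intro r _ x
      rw [form₁_eq]
      exact large_form α hα1 N hN n₁ n₂ hn _ (rho_ge _ _)
  · refine rank_V_le N (fun n₁ n₂ => -θ n₁ n₂) (fun n₁ n₂ => by simp only [θ_neg]) ?_
      (fun _ _ _ => rfl) ?_
    · intro n₁ n₂ r x
      rw [form₂_eq, form₁_eq]
      congr 2
    · intro F hF n₁ n₂ hn y hy
      apply P_eq_zero hF hα n₁ n₂ _ y hy
      intro r _ x
      rw [form₂_eq]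
      exact large_form α hα1 N hN n₁ n₂ hn _ (rho_ge _ _)

/-! ### The Neumann eigenvalue `1/100` of the second metric -/

theorem pd_cos2 (i : Fin (3 + 1)) (x : R4) :
    pd i (fun y : R4 => Real.cos (y 2)) x = -Real.sin (x 2) * (Pi.single i 1 : R4) 2 := by
  unfold pd
  have h1 : HasFDerivAt (fun y : R4 => y 2)
      (ContinuousLinearMap.proj 2 : R4 →L[ℝ] ℝ) x := hasFDerivAt_apply 2 x
  have h2 := h1.cos
  rw [h2.fderiv]
  simp

theorem pd_sin2 (i : Fin (3 + 1)) (x : R4) :
    pd i (fun y : R4 => Real.sin (y 2)) x = Real.cos (x 2) * (Pi.single i 1 : R4) 2 := by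
  unfold pd
  have h1 : HasFDerivAt (fun y : R4 => y 2)
      (ContinuousLinearMap.proj 2 : R4 →L[ℝ] ℝ) x := hasFDerivAt_apply 2 x
  have h2 := h1.sin
  rw [h2.fderiv]
  simp

theorem cos_mem : (fun x : slab 3 => Real.cos (x.1 2)) ∈
    V rho zer rho (fun r x => -(1 / 100 * rho r x)) 0 := by
  refine ⟨fun x => Real.cos (x 2), (isSol_ofReal_iff _ _ _ _ _ _).2 ⟨?_, ?_, ?_, ?_, ?_⟩,
    fun x => rfl⟩
  · exact Real.contDiff_cos.comp (contDiff_coord 2)
  · intro x i
    by_cases h : i = 1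
    · subst h
      have : (x + Pi.single (Fin.succ 1) (2 * π) : R4) 2 = x 2 + 2 * π := by
        have : (Fin.succ 1 : Fin (3 + 1)) = 2 := rfl
        rw [this]; simp
      simp only
      rw [this, Real.cos_add_two_pi]
    · have h1 : (2 : Fin (3 + 1)) ≠ i.succ := by
        intro h2
        apply h
        have : (Fin.succ 1 : Fin (3 + 1)) = i.succ := h2
        exact (Fin.succ_injective _ this).symm
      have : (x + Pi.single i.succ (2 * π) : R4) 2 = x 2 := by simp [h1]
      simp only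
      rw [this]
  · intro x _
    have hz : ∀ i : Fin (3 + 1), i ≠ 2 → pd i (fun y : R4 => Real.cos (y 2)) = fun _ => 0 := by
      intro i hi
      ext y
      rw [pd_cos2, Pi.single_eq_of_ne (Ne.symm hi), mul_zero]
    have h2 : pd 2 (fun y : R4 => Real.cos (y 2)) = fun y => -Real.sin (y 2) := by
      ext y
      rw [pd_cos2, Pi.single_eq_same, mul_one]
    have hc : ∀ i : Fin (3 + 1), pd i (fun _ : R4 => (0 : ℝ)) = fun _ => 0 := by
      intro i; ext y; unfold pd; simp
    have h22 : pd 2 (fun y : R4 => -Real.sin (y 2)) x = -Real.cos (x 2) := by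
      have := pd_const_mul_real 2 (fun y : R4 => Real.sin (y 2))
        (Real.contDiff_sin.comp (contDiff_coord 2)) (-1) x
      rw [pd_sin2, Pi.single_eq_same, mul_one] at this
      simpa using this
    unfold LR
    rw [hz 0 (by decide), hz 1 (by decide), hz 3 (by decide), h2, hc, hc, hc, hc, h22]
    unfold zer
    ring
  · intro x _
    rw [pd_cos2]
    simp
  · intro x _
    rw [pd_cos2]
    simp

theorem neumann₂_ne : neumannMultiplicity metric₂ (1 / 100) ≠ 0 := by
  unfold neumannMultiplicity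
  rw [isEigen₂, Submodule.span_eq]
  intro h
  rw [rank_zero_iff] at h
  have h1 : (⟨_, cos_mem⟩ : V rho zer rho (fun r x => -(1 / 100 * rho r x)) 0) = 0 :=
    Subsingleton.elim _ _
  have h2 := congrArg (fun f => f.1 ⟨(0 : R4), ⟨le_rfl, Real.pi_pos.le⟩⟩) h1
  simp at h2

/-! ### `1/100` is not a Neumann eigenvalue of the first metric -/

/-- an ODE uniqueness statement -/
theorem ode_zero (w w' w'' : ℝ → ℂ) (k : ℂ) (hk : k ≠ 0) (hs : Complex.sinh (k * π) ≠ 0)
    (h1 : ∀ r, HasDerivAt w (w' r) r) (h2 : ∀ r, HasDerivAt w' (w'' r) r)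
    (h3 : ∀ r ∈ Icc 0 π, w'' r = k ^ 2 * w r) (b0 : w' 0 = 0) (bπ : w' π = 0) :
    ∀ r ∈ Icc 0 π, w r = 0 := by
  have hkr : ∀ z : ℂ, HasDerivAt (fun t : ℂ => k * t) k z := by
    intro z
    simpa using (hasDerivAt_id z).const_mul k
  have hch : ∀ r : ℝ, HasDerivAt (fun t : ℝ => Complex.cosh (k * t)) (Complex.sinh (k * r) * k) r :=
    fun r => ((hkr r).ccosh).comp_ofReal
  have hsh : ∀ r : ℝ, HasDerivAt (fun t : ℝ => Complex.sinh (k * t)) (Complex.cosh (k * r) * k) r :=
    fun r => ((hkr r).csinh).comp_ofReal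
  have const : ∀ f : ℝ → ℂ, ∀ f' : ℝ → ℂ, (∀ r, HasDerivAt f (f' r) r) →
      (∀ r ∈ Icc 0 π, f' r = 0) → ∀ r ∈ Icc (0 : ℝ) π, f r = f 0 := by
    intro f f' hf hf' r hr
    refine constant_of_has_deriv_right_zero (a := 0) (b := π)
      (fun x _ => (hf x).continuousAt.continuousWithinAt) ?_ r hr
    intro x hx
    have := (hf x).hasDerivWithinAt (s := Ici x)
    rw [hf' x ⟨hx.1, hx.2.le⟩] at this
    exact this
  -- two first integrals
  have I1 := const (fun r => w' r * Complex.cosh (k * r) - k * w r * Complex.sinh (k * r))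
    (fun r => (w'' r * Complex.cosh (k * r) + w' r * (Complex.sinh (k * r) * k)) -
      (k * w' r * Complex.sinh (k * r) + k * w r * (Complex.cosh (k * r) * k)))
    (fun r => ((h2 r).mul (hch r)).sub (((h1 r).const_mul k).mul (hsh r)))
    (fun r hr => by rw [h3 r hr]; ring)
  have I2 := const (fun r => w' r * Complex.sinh (k * r) - k * w r * Complex.cosh (k * r))
    (fun r => (w'' r * Complex.sinh (k * r) + w' r * (Complex.cosh (k * r) * k)) -
      (k * w' r * Complex.cosh (k * r) + k * w r * (Complex.sinh (k * r) * k)))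
    (fun r => ((h2 r).mul (hsh r)).sub (((h1 r).const_mul k).mul (hch r)))
    (fun r hr => by rw [h3 r hr]; ring)
  simp only [Complex.ofReal_zero, mul_zero, Complex.cosh_zero, Complex.sinh_zero, b0,
    sub_zero, mul_one, zero_sub] at I1 I2
  have e1 := I1 π ⟨Real.pi_pos.le, le_rfl⟩
  rw [bπ, zero_mul, zero_sub, neg_eq_zero] at e1
  have e2 : w π = 0 := by
    rcases mul_eq_zero.1 e1 with h | h
    · rcases mul_eq_zero.1 h with h | h
      · exact absurd h hk
      · exact h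
    · exact absurd h hs
  have e3 := I2 π ⟨Real.pi_pos.le, le_rfl⟩
  rw [bπ, e2] at e3
  have e4 : k * w 0 = 0 := by
    have : -(k * w 0) = 0 := by rw [← e3]; ring
    simpa using this
  intro r hr
  have f1 := I1 r hr
  have f2 := I2 r hr
  rw [e4, neg_zero] at f2
  have hcs := Complex.cosh_sq_sub_sinh_sq (k * r)
  have : k * w r = 0 := by
    linear_combination Complex.sinh (k * r) * f1 - Complex.cosh (k * r) * f2 - k * w r * hcs
  rcases mul_eq_zero.1 this with h | h
  · exact absurd h hk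
  · exact h

/-- the mode zero in the torus variables -/
theorem P00_zero {F : R4 → ℂ} (hF : IsSol a₁ b₁ c₁ (fun _ _ => -(1 / 100)) 0 F)
    (y : R4) (hy : y ∈ slab 3) : P 0 0 F y = 0 := by
  have hP := hF.P 0 0
  set G := P 0 0 F with hG
  have hpde : ∀ x ∈ slab 3, pd 0 (pd 0 G) x + pd 1 (pd 1 G) x = -(1 / 100) * G x := by
    intro x hx
    have := P_pde hF 0 0 x hx
    rw [← hG] at this
    rw [this]
    push_cast
    ring
  -- all Fourier coefficients in the variable `x₁` vanish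
  have key : ∀ m : ℤ, ∀ z ∈ slab 3, avg (ev 1) m G z = 0 := by
    intro m z hz
    set H := avg (ev 1) m G with hH
    have hHs : ContDiff ℝ ∞ H := contDiff_avg _ _ _ hP.smooth
    have hd1 : pd 1 H = fun x => Complex.I * m * H x := by
      ext x
      exact fderiv_avg_dir (ev 1) m G hP.smooth (hP.per_smul 1 (by decide)) x
    have hd11 : ∀ x, pd 1 (pd 1 H) x = -(m ^ 2 : ℂ) * H x := by
      intro x
      rw [hd1, pd_const_mul 1 H hHs, hd1]
      simp only
      linear_combination (m : ℂ) ^ 2 * H x * Complex.I_sq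
    have hH0 : ∀ x ∈ slab 3, pd 0 (pd 0 H) x = ((m : ℂ) ^ 2 - 1 / 100) * H x := by
      intro x hx
      have h1 : pd 0 (pd 0 H) x + pd 1 (pd 1 H) x = -(1 / 100) * H x := by
        rw [hH, pd_pd_avg _ _ G hP.smooth, pd_pd_avg _ _ G hP.smooth,
          ← avg_add _ _ _ _ (contDiff_pd 0 _ (contDiff_pd 0 G hP.smooth)).continuous
            (contDiff_pd 1 _ (contDiff_pd 1 G hP.smooth)).continuous, ← avg_smul_const]
        apply avg_congr
        intro s
        exact hpde _ (mem_slab_add 1 (by decide) x hx s)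
      rw [hd11] at h1
      linear_combination h1
    have hb0 : ∀ x : R4, x 0 = 0 → pd 0 H x = 0 := by
      intro x hx
      rw [hH, pd_avg _ _ G hP.smooth]
      rw [avg_congr _ _ _ (fun _ => 0), avg_zero]
      intro s
      have := hP.bc0 (x + s • ev 1) (by rw [add_ev_ne 1 0 (by decide), hx])
      simpa using this
    have hbπ : ∀ x : R4, x 0 = π → pd 0 H x = 0 := by
      intro x hx
      rw [hH, pd_avg _ _ G hP.smooth]
      rw [avg_congr _ _ _ (fun _ => 0), avg_zero]
      intro s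
      have := hP.bcπ (x + s • ev 1) (by rw [add_ev_ne 1 0 (by decide), hx])
      simpa using this
    -- choose the square root `k`
    obtain ⟨k, hk, hk2, hks⟩ : ∃ k : ℂ, k ≠ 0 ∧ k ^ 2 = (m : ℂ) ^ 2 - 1 / 100 ∧
        Complex.sinh (k * π) ≠ 0 := by
      by_cases hm : m = 0
      · refine ⟨Complex.I / 10, by simp [Complex.I_ne_zero], ?_, ?_⟩
        · rw [hm, div_pow, Complex.I_sq]; norm_num
        · have h1 : Complex.I / 10 * π = ((π / 10 : ℝ) : ℂ) * Complex.I := by
            push_cast; ring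
          rw [h1, Complex.sinh_mul_I, ← Complex.ofReal_sin]
          apply mul_ne_zero _ Complex.I_ne_zero
          have h2 : 0 < Real.sin (π / 10) :=
            Real.sin_pos_of_pos_of_lt_pi (by positivity) (by linarith [Real.pi_pos])
          exact_mod_cast h2.ne'
      · have h1 : (1 : ℝ) ≤ (m : ℝ) ^ 2 := by
          have : 1 ≤ m ^ 2 := by
            have := sq_nonneg m
            have h3 : m ^ 2 ≠ 0 := pow_ne_zero 2 hm
            omega
          exact_mod_cast this
        have h2 : 0 < (m : ℝ) ^ 2 - 1 / 100 := by linarith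
        refine ⟨(√((m : ℝ) ^ 2 - 1 / 100) : ℝ), ?_, ?_, ?_⟩
        · exact_mod_cast (Real.sqrt_pos.2 h2).ne'
        · rw [← Complex.ofReal_pow, Real.sq_sqrt h2.le]
          push_cast; ring
        · rw [← Complex.ofReal_mul, ← Complex.ofReal_sinh]
          have h3 : 0 < Real.sinh (√((m : ℝ) ^ 2 - 1 / 100) * π) :=
            Real.sinh_pos_iff.2 (mul_pos (Real.sqrt_pos.2 h2) Real.pi_pos)
          exact_mod_cast h3.ne'
    have := ode_zero (fun r => H (pt z r (z 1))) (fun r => pd 0 H (pt z r (z 1)))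
      (fun r => pd 0 (pd 0 H) (pt z r (z 1))) k hk hks
      (fun r => hasDerivAt_comp_pt_r H hHs z r (z 1))
      (fun r => hasDerivAt_comp_pt_r _ (contDiff_pd 0 H hHs) z r (z 1))
      (fun r hr => by
        rw [hk2]
        apply hH0
        unfold slab; simp only [Set.mem_ofPred_eq, pt_zero]; exact hr)
      (hb0 _ (pt_zero _ _ _)) (hbπ _ (pt_zero _ _ _)) (z 0) hz
    simp only [pt_self] at this
    exact this
  have := eq_sum_avg (ev 1) G hP.smooth.continuous y
    (fun s => by rw [add_smul, ← add_assoc, hP.per_smul 1 (by decide)]) ∅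
    (fun m _ => key m y hy)
  simpa using this

/-- the other modes: positivity -/
theorem P_zero_of_ne {F : R4 → ℂ} (hF : IsSol a₁ b₁ c₁ (fun _ _ => -(1 / 100)) 0 F)
    (n₁ n₂ : ℤ) (hn : ¬(n₁ = 0 ∧ n₂ = 0)) (y : R4) (hy : y ∈ slab 3) : P n₁ n₂ F y = 0 := by
  have hP := hF.P n₁ n₂
  have hn2 : (1 : ℝ) ≤ (n₁ : ℝ) ^ 2 + n₂ ^ 2 := by
    have : 1 ≤ n₁ ^ 2 + n₂ ^ 2 := by
      by_contra hlt
      push Not at hlt
      have h1 := sq_nonneg n₁
      have h2 := sq_nonneg n₂
      apply hn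
      constructor
      · have : n₁ ^ 2 = 0 := by omega
        simpa using this
      · have : n₂ ^ 2 = 0 := by omega
        simpa using this
    exact_mod_cast this
  set t := θ n₁ n₂ with ht
  -- the supersolution
  set h : ℝ → ℝ → ℝ := fun r x => 1 - (1 / 500) * (2 + Real.sin r ^ 2) * Real.cos (x - t) +
    (1 / 2000) * Real.cos (2 * r) + (1 / 10000) * (r - π / 2) ^ 2 with hh
  set hr : ℝ → ℝ → ℝ := fun r x => -((1 / 500) * (2 * Real.sin r * Real.cos r) * Real.cos (x - t)) -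
    (1 / 1000) * Real.sin (2 * r) + (1 / 5000) * (r - π / 2) with hhr
  set hrr : ℝ → ℝ → ℝ := fun r x => -((1 / 500) * (2 * Real.cos r ^ 2 - 2 * Real.sin r ^ 2) *
    Real.cos (x - t)) - (1 / 500) * Real.cos (2 * r) + 1 / 5000 with hhrr
  set hx : ℝ → ℝ → ℝ := fun r x => (1 / 500) * (2 + Real.sin r ^ 2) * Real.sin (x - t) with hhx
  set hxx : ℝ → ℝ → ℝ := fun r x => (1 / 500) * (2 + Real.sin r ^ 2) * Real.cos (x - t) with hhxx
  have hcos2 : ∀ r : ℝ, Real.cos (2 * r) = 1 - 2 * S r := by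
    intro r
    have h1 := Real.cos_two_mul r
    have h2 := Real.sin_sq_add_cos_sq r
    unfold S
    linarith
  have hsq : ∀ r ∈ Icc 0 π, 0 ≤ (r - π / 2) ^ 2 ∧ (r - π / 2) ^ 2 ≤ 4 := by
    intro r hr'
    have h1 := Real.pi_lt_four
    refine ⟨sq_nonneg _, ?_⟩
    have h2 := hr'.1
    have h3 := hr'.2
    nlinarith
  have hbound : ∀ r ∈ Icc 0 π, ∀ x, 99 / 100 ≤ h r x := by
    intro r hr' x
    simp only [hh]
    rw [hcos2]
    have h1 := hsq r hr'
    have h2 := Real.neg_one_le_cos (x - t)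
    have h3 := Real.cos_le_one (x - t)
    have h4 := S_nonneg r
    have h5 := S_le_one r
    unfold S at h4 h5 ⊢
    nlinarith
  have key := complex_eq_zero (P n₁ n₂ F) hP.smooth (fun y => hP.per y 1 (by decide)) y
    (fun r x => (1 / 100) * (a₁ r x * n₁ ^ 2 + 2 * b₁ r x * n₁ * n₂ + c₁ r x * n₂ ^ 2) + -(1 / 100))
    h hr hrr hx hxx 0 ?_ ?_ ?_ ?_ ?_ ?_ ?_ ?_ ?_ ?_ ?_ ?_ ?_
  · have := key (y 0) ⟨hy.1, hy.2⟩ (y 1)
    rwa [pt_self] at this
  · intro r hr' x
    have h1 := P_pde hF n₁ n₂ (pt y r x) (by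
      unfold slab; simp only [Set.mem_ofPred_eq, pt_zero]; exact hr')
    rw [pt_zero, pt_one] at h1
    exact h1
  · intro x
    exact hP.bc0 _ (pt_zero _ _ _)
  · intro x
    exact hP.bcπ _ (pt_zero _ _ _)
  · simp only [hh]; fun_prop
  · intro r x
    simp only [hh]
    have : x + 2 * π - t = (x - t) + 2 * π := by ring
    rw [this, Real.cos_add_two_pi]
  · intro r x
    simp only [hh, hhr]
    have d1 : HasDerivAt (fun r : ℝ => Real.sin r ^ 2) (2 * Real.sin r * Real.cos r) r := by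
      have := (Real.hasDerivAt_sin r).pow 2
      exact this.congr_deriv (by simp)
    have d2 : HasDerivAt (fun r : ℝ => Real.cos (2 * r)) (-Real.sin (2 * r) * 2) r := by
      have h2r : HasDerivAt (fun r : ℝ => 2 * r) 2 r := by
        simpa using (hasDerivAt_id r).const_mul (2 : ℝ)
      exact h2r.cos
    have d3 : HasDerivAt (fun r : ℝ => (r - π / 2) ^ 2) (2 * (r - π / 2)) r := by
      have := ((hasDerivAt_id r).sub_const (π / 2)).pow 2
      exact this.congr_deriv (by simp)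
    have := (((((d1.const_add 2).const_mul (1 / 500)).mul_const (Real.cos (x - t))).const_sub
      1).add (d2.const_mul (1 / 2000))).add (d3.const_mul (1 / 10000))
    exact this.congr_deriv (by ring)
  · intro r x
    simp only [hhr, hhrr]
    have d1 : HasDerivAt (fun r : ℝ => 2 * Real.sin r * Real.cos r)
        (2 * Real.cos r ^ 2 - 2 * Real.sin r ^ 2) r := by
      have := ((Real.hasDerivAt_sin r).const_mul 2).mul (Real.hasDerivAt_cos r)
      exact this.congr_deriv (by ring)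
    have d2 : HasDerivAt (fun r : ℝ => Real.sin (2 * r)) (Real.cos (2 * r) * 2) r := by
      have h2r : HasDerivAt (fun r : ℝ => 2 * r) 2 r := by
        simpa using (hasDerivAt_id r).const_mul (2 : ℝ)
      exact h2r.sin
    have d3 : HasDerivAt (fun r : ℝ => (r - π / 2)) 1 r := (hasDerivAt_id r).sub_const (π / 2)
    have := ((((d1.const_mul (1 / 500)).mul_const (Real.cos (x - t))).neg).sub
      (d2.const_mul (1 / 1000))).add (d3.const_mul (1 / 5000))
    exact this.congr_deriv (by ring)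
  · intro r x
    simp only [hh, hhx]
    have d0 : HasDerivAt (fun x : ℝ => x - t) 1 x := (hasDerivAt_id x).sub_const t
    have d1 : HasDerivAt (fun x : ℝ => Real.cos (x - t)) (-Real.sin (x - t) * 1) x := d0.cos
    have := (((d1.const_mul ((1 / 500) * (2 + Real.sin r ^ 2))).const_sub 1).add_const
      ((1 / 2000) * Real.cos (2 * r))).add_const ((1 / 10000) * (r - π / 2) ^ 2)
    exact this.congr_deriv (by ring)
  · intro r x
    simp only [hhx, hhxx]
    have d0 : HasDerivAt (fun x : ℝ => x - t) 1 x := (hasDerivAt_id x).sub_const t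
    have d1 : HasDerivAt (fun x : ℝ => Real.sin (x - t)) (Real.cos (x - t) * 1) x := d0.sin
    have := d1.const_mul ((1 / 500) * (2 + Real.sin r ^ 2))
    exact this.congr_deriv (by ring)
  · intro r hr' x
    have hb := hbound r hr' x
    have hsq' := hsq r hr'
    have hq : (1 / 100) * rho r (x - t) - 1 / 100 ≤
        (1 / 100) * (a₁ r x * n₁ ^ 2 + 2 * b₁ r x * n₁ * n₂ + c₁ r x * n₂ ^ 2) + -(1 / 100) := by
      rw [form₁_eq]
      have h1 := rho_pos r (x - t)
      rw [← ht]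
      nlinarith
    refine lt_of_lt_of_le ?_ (mul_le_mul_of_nonneg_right hq (by linarith))
    simp only [hh, hhrr, hhxx] at hb ⊢
    rw [hcos2] at hb ⊢
    have hC : 2 / 5 * S r ^ 2 ≤ C r - 1 := by
      have h1 := C_sq r
      have h2 := C_pos r
      have h3 := S_nonneg r
      have h4 := S_le_one r
      by_contra hlt
      push Not at hlt
      have h5 : C r < 1 + 2 / 5 * S r ^ 2 := by linarith
      have h6 : C r ^ 2 < (1 + 2 / 5 * S r ^ 2) ^ 2 := by
        apply pow_lt_pow_left₀ h5 h2.le (by norm_num)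
      nlinarith [sq_nonneg (S r), pow_le_one₀ (n := 2) h3 h4]
    have hcc : Real.cos r ^ 2 = 1 - S r := by
      have h2 := Real.sin_sq_add_cos_sq r
      unfold S
      linarith
    have hss : Real.sin r ^ 2 = S r := rfl
    rw [hcc, hss] at *
    unfold rho at *
    have c1 := Real.neg_one_le_cos (x - t)
    have c2 := Real.cos_le_one (x - t)
    have s1 := S_nonneg r
    have s2 := S_le_one r
    set y' := Real.cos (x - t)
    set s := S r
    set q := (r - π / 2) ^ 2
    set Cr := C r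
    -- notation: h = 1 - a y' + c
    have hmain : (1 / 100) * (Cr - 1) * (99 / 100) ≤ (1 / 100) * (Cr - 1) *
        (1 - 1 / 500 * (2 + s) * y' + 1 / 2000 * (1 - 2 * s) + 1 / 10000 * q) := by
      apply mul_le_mul_of_nonneg_left hb
      nlinarith
    have hcross : -((1 / 100) * s * (7 / 1000)) ≤ (1 / 100) * (s * y') *
        (-(1 / 500 * (2 + s) * y') + 1 / 2000 * (1 - 2 * s) + 1 / 10000 * q) := by
      have e1 : |y'| ≤ 1 := abs_le.2 ⟨c1, c2⟩
      have e2 : |-(1 / 500 * (2 + s) * y') + 1 / 2000 * (1 - 2 * s) + 1 / 10000 * q| ≤ 7 / 1000 := by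
        rw [abs_le]
        constructor <;> nlinarith [hsq'.1, hsq'.2]
      have e3 : |y' * (-(1 / 500 * (2 + s) * y') + 1 / 2000 * (1 - 2 * s) + 1 / 10000 * q)| ≤
          1 * (7 / 1000) := by
        rw [abs_mul]
        exact mul_le_mul e1 e2 (abs_nonneg _) (by norm_num)
      have e4 := (abs_le.1 e3).1
      have e5 : (1 / 100) * s * (-(1 * (7 / 1000))) ≤ (1 / 100) * s *
          (y' * (-(1 / 500 * (2 + s) * y') + 1 / 2000 * (1 - 2 * s) + 1 / 10000 * q)) :=
        mul_le_mul_of_nonneg_left e4 (by positivity)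
      linarith
    nlinarith [hmain, hcross, hC, sq_nonneg (s - 1 / 2)]
  · intro r hr' x
    linarith [hbound r hr' x]
  · intro x
    simp only [hhr]
    simp
    positivity
  · intro x
    simp only [hhr]
    simp
    positivity

theorem sol₁_zero {F : R4 → ℂ} (hF : IsSol a₁ b₁ c₁ (fun _ _ => -(1 / 100)) 0 F)
    (y : R4) (hy : y ∈ slab 3) : F y = 0 := by
  have := expand hF ∅ (fun n₁ n₂ _ z hz => by
    by_cases h : n₁ = 0 ∧ n₂ = 0
    · obtain ⟨rfl, rfl⟩ := h
      exact P00_zero hF z hz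
    · exact P_zero_of_ne hF n₁ n₂ h z hz) y hy
  simpa using this

theorem neumann₁_zero : neumannMultiplicity metric₁ (1 / 100) = 0 := by
  unfold neumannMultiplicity
  rw [isEigen₁, Submodule.span_eq, rank_zero_iff]
  constructor
  have key : ∀ f : V a₁ b₁ c₁ (fun _ _ => -(1 / 100)) 0, f = 0 := by
    rintro ⟨f, F, hF, hFf⟩
    apply Subtype.ext
    ext x
    have h1 := sol₁_zero hF x x.2
    have h2 : F x = 0 := by exact_mod_cast h1
    change f x = 0
    rw [← hFf, h2]
  intro f g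
  rw [key f, key g]

theorem not_neumann_isospectral : ¬ NeumannIsospectral metric₁ metric₂ := by
  intro h
  have := h (1 / 100)
  rw [neumann₁_zero] at this
  exact neumann₂_ne this.symm

end

end Pool.Agent.H65.Steklov
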