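import Pool.Agent.H65.Modes

set_option autoImplicit false

open scoped ContDiff Real
open Set

namespace Pool.Agent.H65.Steklov

noncomputable section

/-! ### Finitely many modes -/

theorem sinh_ge_half_cosh (y : ℝ) (hy : 1 ≤ y) : Real.cosh y / 2 ≤ Real.sinh y := by
  rw [Real.cosh_eq, Real.sinh_eq]
  have h1 : (3 : ℝ) ≤ Real.exp (2 * y) := by
    have := Real.add_one_le_exp (2 * y)
    linarith
  have h2 : Real.exp (2 * y) = Real.exp y * Real.exp y := by
    rw [← Real.exp_add]; ring_nf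
  have h3 : Real.exp (-y) * Real.exp y = 1 := by
    rw [← Real.exp_add]; simp
  have h4 : 0 < Real.exp y := Real.exp_pos y
  have h5 : 0 < Real.exp (-y) := Real.exp_pos _
  have h6 : 3 * Real.exp (-y) ≤ Real.exp y := by
    have : 3 * Real.exp (-y) ≤ Real.exp (2 * y) * Real.exp (-y) :=
      mul_le_mul_of_nonneg_right h1 h5.le
    calc 3 * Real.exp (-y) ≤ Real.exp (2 * y) * Real.exp (-y) := this
      _ = Real.exp y * (Real.exp (-y) * Real.exp y) := by rw [h2]; ring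
      _ = Real.exp y := by rw [h3, mul_one]
  linarith

theorem P_eq_zero {a b c : ℝ → ℝ → ℝ} {σ α : ℝ} {F : R4 → ℂ}
    (hF : IsSol a b c (fun _ _ => 0) σ F) (hα : α = 2 * |σ| + 1) (n₁ n₂ : ℤ)
    (hq : ∀ r ∈ Icc 0 π, ∀ x, 100 * α ^ 2 <
      a r x * n₁ ^ 2 + 2 * b r x * n₁ * n₂ + c r x * n₂ ^ 2)
    (y : R4) (hy : y ∈ slab 3) : P n₁ n₂ F y = 0 := by
  have hP := hF.P n₁ n₂
  have hα1 : 1 ≤ α := by rw [hα]; have := abs_nonneg σ; linarith
  have hy2 : 1 ≤ α * π / 2 := by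
    have := Real.pi_gt_three
    nlinarith
  have hbc : σ * Real.cosh (α * π / 2) < α * Real.sinh (α * π / 2) := by
    have h1 := sinh_ge_half_cosh _ hy2
    have h2 := Real.cosh_pos (α * π / 2)
    have h3 : σ ≤ |σ| := le_abs_self σ
    have h4 : α * (Real.cosh (α * π / 2) / 2) ≤ α * Real.sinh (α * π / 2) :=
      mul_le_mul_of_nonneg_left h1 (by linarith)
    have h6 : α * Real.cosh (α * π / 2) = (2 * |σ| + 1) * Real.cosh (α * π / 2) :=
      congrArg (· * Real.cosh (α * π / 2)) hα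
    have h7 : σ * Real.cosh (α * π / 2) ≤ |σ| * Real.cosh (α * π / 2) :=
      mul_le_mul_of_nonneg_right h3 h2.le
    have h5 : σ * Real.cosh (α * π / 2) < α * (Real.cosh (α * π / 2) / 2) := by
      linarith
    linarith
  have key := complex_eq_zero (P n₁ n₂ F) hP.smooth (fun y => hP.per y 1 (by decide)) y
    (fun r x => (1 / 100) * (a r x * n₁ ^ 2 + 2 * b r x * n₁ * n₂ + c r x * n₂ ^ 2) + 0)
    (fun r _ => Real.cosh (α * (r - π / 2)))
    (fun r _ => α * Real.sinh (α * (r - π / 2)))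
    (fun r _ => α * (α * Real.cosh (α * (r - π / 2))))
    (fun _ _ => 0) (fun _ _ => 0) σ ?_ ?_ ?_ ?_ ?_ ?_ ?_ ?_ ?_ ?_ ?_ ?_ ?_
  · have := key (y 0) ⟨hy.1, hy.2⟩ (y 1)
    rwa [pt_self] at this
  · intro r hr x
    have h1 := P_pde hF n₁ n₂ (pt y r x) (by
      unfold slab; simp only [Set.mem_ofPred_eq, pt_zero]; exact hr)
    rw [pt_zero, pt_one] at h1
    exact h1
  · intro x
    exact hP.bc0 _ (pt_zero _ _ _)
  · intro x
    exact hP.bcπ _ (pt_zero _ _ _)
  · exact Real.continuous_cosh.comp (by fun_prop)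
  · intro r x; rfl
  · intro r x
    have h1 : HasDerivAt (fun t : ℝ => α * (t - π / 2)) α r := by
      simpa using ((hasDerivAt_id r).sub_const (π / 2)).const_mul α
    have h2 := (Real.hasDerivAt_cosh (α * (r - π / 2))).comp r h1
    exact h2.congr_deriv (by ring)
  · intro r x
    have h1 : HasDerivAt (fun t : ℝ => α * (t - π / 2)) α r := by
      simpa using ((hasDerivAt_id r).sub_const (π / 2)).const_mul α
    have h2 := ((Real.hasDerivAt_sinh (α * (r - π / 2))).comp r h1).const_mul α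
    exact h2.congr_deriv (by ring)
  · intro r x; exact hasDerivAt_const _ _
  · intro r x; exact hasDerivAt_const _ _
  · intro r hr x
    have h1 := hq r hr x
    have h2 := Real.cosh_pos (α * (r - π / 2))
    have h3 : α * (α * Real.cosh (α * (r - π / 2))) = α ^ 2 * Real.cosh (α * (r - π / 2)) := by
      ring
    rw [h3, add_zero, add_zero]
    apply mul_lt_mul_of_pos_right _ h2
    linarith
  · intro r hr x; exact Real.cosh_pos _
  · intro x
    have e1 : α * (0 - π / 2) = -(α * π / 2) := by ring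
    simp only [e1, Real.cosh_neg, Real.sinh_neg]
    linarith
  · intro x
    have e1 : α * (π - π / 2) = α * π / 2 := by ring
    simp only [e1]
    exact hbc

/-! ### Locality of the projections -/

theorem avg_congr_slab (k : Fin (3 + 1)) (hk0 : k ≠ 0) (n : ℤ) (F G : R4 → ℂ)
    (h : ∀ y ∈ slab 3, F y = G y) (y : R4) (hy : y ∈ slab 3) :
    avg (ev k) n F y = avg (ev k) n G y :=
  avg_congr _ _ _ _ _ (fun s => h _ (mem_slab_add k hk0 y hy s))

theorem P_congr_slab (n₁ n₂ : ℤ) (F G : R4 → ℂ)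
    (h : ∀ y ∈ slab 3, F y = G y) (y : R4) (hy : y ∈ slab 3) :
    P n₁ n₂ F y = P n₁ n₂ G y :=
  avg_congr_slab 2 (by decide) n₁ _ _
    (fun z hz => avg_congr_slab 3 (by decide) n₂ F G h z hz) y hy

theorem P_eq_zero_of_slab (n₁ n₂ : ℤ) (F : R4 → ℂ)
    (h : ∀ y ∈ slab 3, F y = 0) (y : R4) (hy : y ∈ slab 3) :
    P n₁ n₂ F y = 0 := by
  rw [P_congr_slab n₁ n₂ F (fun _ => 0) h y hy]
  unfold P
  have h1 : avg (ev 3) n₂ (fun _ : R4 => (0 : ℂ)) = fun _ => 0 := by
    ext x; exact avg_zero _ _ _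
  rw [h1, avg_zero]

/-! ### Expansion in modes -/

theorem expand {a b c m : ℝ → ℝ → ℝ} {σ : ℝ} {F : R4 → ℂ} (hF : IsSol a b c m σ F)
    (I : Finset ℤ) (hI : ∀ n₁ n₂ : ℤ, (n₁ ∉ I ∨ n₂ ∉ I) → ∀ y ∈ slab 3, P n₁ n₂ F y = 0)
    (y : R4) (hy : y ∈ slab 3) : F y = ∑ n₂ ∈ I, ∑ n₁ ∈ I, P n₁ n₂ F y := by
  have hper : ∀ (G : R4 → ℂ) (k : Fin (3 + 1)), k ≠ 0 → IsSol a b c m σ G →
      ∀ (y : R4) (s : ℝ), G (y + (s + 2 * π) • ev k) = G (y + s • ev k) := by
    intro G k hk hG y s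
    rw [add_smul, ← add_assoc, hG.per_smul k hk]
  have h1 : ∀ n₂ : ℤ, ∀ z ∈ slab 3, avg (ev 3) n₂ F z = ∑ n₁ ∈ I, P n₁ n₂ F z := by
    intro n₂ z hz
    have hG := hF.avg 3 (by decide) (by decide) n₂
    exact eq_sum_avg (ev 2) _ hG.smooth.continuous z (hper _ 2 (by decide) hG z) I
      (fun m hm => hI m n₂ (Or.inl hm) z hz)
  have h2 : F y = ∑ n₂ ∈ I, avg (ev 3) n₂ F y := by
    apply eq_sum_avg (ev 3) F hF.smooth.continuous y (hper F 3 (by decide) hF y) I
    intro m hm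
    rw [h1 m y hy]
    apply Finset.sum_eq_zero
    intro n₁ _
    exact hI n₁ m (Or.inr hm) y hy
  rw [h2]
  exact Finset.sum_congr rfl (fun n₂ _ => h1 n₂ y hy)

/-! ### Linear structure on solutions -/

theorem pd_add (i : Fin (3 + 1)) (F G : R4 → ℂ) (hF : ContDiff ℝ ∞ F) (hG : ContDiff ℝ ∞ G) :
    pd i (fun y => F y + G y) = fun y => pd i F y + pd i G y := by
  ext y
  unfold pd
  rw [fderiv_fun_add ((hF.differentiable (by simp)) y) ((hG.differentiable (by simp)) y)]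
  rfl

theorem LL_add (a b c : ℝ → ℝ → ℝ) (F G : R4 → ℂ) (hF : ContDiff ℝ ∞ F) (hG : ContDiff ℝ ∞ G)
    (x : R4) : LL a b c (fun y => F y + G y) x = LL a b c F x + LL a b c G x := by
  unfold LL
  simp only [pd_add _ F G hF hG, pd_add _ _ _ (contDiff_pd _ F hF) (contDiff_pd _ G hG)]
  ring

theorem LL_const_mul (a b c : ℝ → ℝ → ℝ) (F : R4 → ℂ) (hF : ContDiff ℝ ∞ F) (z : ℂ)
    (x : R4) : LL a b c (fun y => z * F y) x = z * LL a b c F x := by
  unfold LL
  simp only [pd_const_mul _ F hF, pd_const_mul _ _ (contDiff_pd _ F hF)]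
  ring

theorem IsSol.add {a b c m : ℝ → ℝ → ℝ} {σ : ℝ} {F G : R4 → ℂ} (hF : IsSol a b c m σ F)
    (hG : IsSol a b c m σ G) : IsSol a b c m σ (fun y => F y + G y) where
  smooth := hF.smooth.add hG.smooth
  per := fun x k hk => by simp only [hF.per x k hk, hG.per x k hk]
  pde := fun x hx => by rw [LL_add a b c F G hF.smooth hG.smooth, hF.pde x hx, hG.pde x hx]; ring
  bc0 := fun x hx => by
    rw [pd_add 0 F G hF.smooth hG.smooth]
    have h1 := hF.bc0 x hx
    have h2 := hG.bc0 x hx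
    simp only
    linear_combination h1 + h2
  bcπ := fun x hx => by
    rw [pd_add 0 F G hF.smooth hG.smooth]
    have h1 := hF.bcπ x hx
    have h2 := hG.bcπ x hx
    simp only
    linear_combination h1 + h2

theorem IsSol.const_mul {a b c m : ℝ → ℝ → ℝ} {σ : ℝ} {F : R4 → ℂ} (hF : IsSol a b c m σ F)
    (z : ℂ) : IsSol a b c m σ (fun y => z * F y) where
  smooth := contDiff_const.mul hF.smooth
  per := fun x k hk => by simp only [hF.per x k hk]
  pde := fun x hx => by rw [LL_const_mul a b c F hF.smooth, hF.pde x hx]; ring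
  bc0 := fun x hx => by
    rw [pd_const_mul 0 F hF.smooth]
    have h1 := hF.bc0 x hx
    simp only
    linear_combination z * h1
  bcπ := fun x hx => by
    rw [pd_const_mul 0 F hF.smooth]
    have h1 := hF.bcπ x hx
    simp only
    linear_combination z * h1

theorem pd_zero (i : Fin (3 + 1)) : pd i (fun _ : R4 => (0 : ℂ)) = fun _ => 0 := by
  ext x; unfold pd; simp

theorem IsSol.zero (a b c m : ℝ → ℝ → ℝ) (σ : ℝ) : IsSol a b c m σ (fun _ => 0) where
  smooth := contDiff_const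
  per := fun _ _ _ => rfl
  pde := fun x _ => by unfold LL; simp [pd_zero]
  bc0 := fun x _ => by simp [pd_zero]
  bcπ := fun x _ => by simp [pd_zero]

theorem IsSol.sum {a b c m : ℝ → ℝ → ℝ} {σ : ℝ} {ι : Type} (t : Finset ι) (F : ι → R4 → ℂ)
    (hF : ∀ i ∈ t, IsSol a b c m σ (F i)) : IsSol a b c m σ (fun y => ∑ i ∈ t, F i y) := by
  classical
  induction t using Finset.induction_on with
  | empty => simpa using IsSol.zero a b c m σ
  | insert i t hi ih =>
    simp only [Finset.sum_insert hi]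
    exact (hF i (Finset.mem_insert_self i t)).add
      (ih (fun j hj => hF j (Finset.mem_insert_of_mem hj)))

/-! ### Shifting a single mode -/

theorem pd_shift (i : Fin (3 + 1)) (G : R4 → ℂ) (v : R4) :
    pd i (fun x => G (x + v)) = fun x => pd i G (x + v) := by
  ext x
  unfold pd
  rw [fderiv_comp_add_right]

theorem isSol_shift {a b c a' b' c' m : ℝ → ℝ → ℝ} {σ : ℝ} {F : R4 → ℂ}
    (hF : IsSol a b c m σ F) (n₁ n₂ : ℤ) (s : ℝ)
    (hq : ∀ r x, a' r x * n₁ ^ 2 + 2 * b' r x * n₁ * n₂ + c' r x * n₂ ^ 2 =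
      a r (x + s) * n₁ ^ 2 + 2 * b r (x + s) * n₁ * n₂ + c r (x + s) * n₂ ^ 2)
    (hm : ∀ r x, m r (x + s) = m r x) :
    IsSol a' b' c' m σ (fun x => P n₁ n₂ F (x + s • ev 1)) where
  smooth := (hF.P n₁ n₂).smooth.comp (by fun_prop)
  per := by
    intro x k hk
    have := (hF.P n₁ n₂).per (x + s • ev 1) k hk
    rw [add_right_comm] at this
    exact this
  pde := by
    intro x hx
    have hP := hF.P n₁ n₂
    have e2 := pd2_P hF n₁ n₂
    have e3 := pd3_P hF n₁ n₂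
    have hc : ∀ (z : ℂ) (i : Fin (3 + 1)), pd i (fun x => z * P n₁ n₂ F x) =
        fun y => z * pd i (P n₁ n₂ F) y := fun z i => pd_const_mul i _ hP.smooth z
    have e22 : pd 2 (pd 2 (P n₁ n₂ F)) = fun x => -(n₁ ^ 2 : ℂ) * P n₁ n₂ F x := by
      rw [e2, hc, e2]; ext x; simp only
      linear_combination (n₁ : ℂ) ^ 2 * P n₁ n₂ F x * Complex.I_sq
    have e23 : pd 2 (pd 3 (P n₁ n₂ F)) = fun x => -(n₁ * n₂ : ℂ) * P n₁ n₂ F x := by
      rw [e3, hc, e2]; ext x; simp only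
      linear_combination (n₁ : ℂ) * n₂ * P n₁ n₂ F x * Complex.I_sq
    have e32 : pd 3 (pd 2 (P n₁ n₂ F)) = fun x => -(n₁ * n₂ : ℂ) * P n₁ n₂ F x := by
      rw [e2, hc, e3]; ext x; simp only
      linear_combination (n₁ : ℂ) * n₂ * P n₁ n₂ F x * Complex.I_sq
    have e33 : pd 3 (pd 3 (P n₁ n₂ F)) = fun x => -(n₂ ^ 2 : ℂ) * P n₁ n₂ F x := by
      rw [e3, hc, e3]; ext x; simp only
      linear_combination (n₂ : ℂ) ^ 2 * P n₁ n₂ F x * Complex.I_sq
    have h1 := P_pde hF n₁ n₂ (x + s • ev 1) (mem_slab_add 1 (by decide) x hx s)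
    have x0 : (x + s • ev 1) 0 = x 0 := add_ev_ne 1 0 (by decide) x s
    have x1 : (x + s • ev 1) 1 = x 1 + s := by rw [smul_ev]; simp
    rw [x0, x1, hm] at h1
    have h2 := hq (x 0) (x 1)
    unfold LL
    simp only [pd_shift]
    rw [e22, e23, e32, e33]
    simp only
    have h3 : (((a' (x 0) (x 1) * n₁ ^ 2 + 2 * b' (x 0) (x 1) * n₁ * n₂ +
        c' (x 0) (x 1) * n₂ ^ 2 : ℝ)) : ℂ) = ((a (x 0) (x 1 + s) * n₁ ^ 2 +
        2 * b (x 0) (x 1 + s) * n₁ * n₂ + c (x 0) (x 1 + s) * n₂ ^ 2 : ℝ) : ℂ) := by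
      rw [h2]
    push_cast at h1 h3
    linear_combination h1 - (1 / 100) * P n₁ n₂ F (x + s • ev 1) * h3
  bc0 := by
    intro x hx
    rw [pd_shift]
    exact (hF.P n₁ n₂).bc0 _ (by rw [add_ev_ne 1 0 (by decide), hx])
  bcπ := by
    intro x hx
    rw [pd_shift]
    exact (hF.P n₁ n₂).bcπ _ (by rw [add_ev_ne 1 0 (by decide), hx])

end

end Pool.Agent.H65.Steklov
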